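import Mathlib

set_option autoImplicit false

namespace Pool.Agent.Lib.MP_def338_an

noncomputable def aa (n : ℕ) : ℝ := if n % 2 = 0 then 1 / 9 else 1 / 2

noncomputable def xx (n : ℕ) : ℝ :=
  (∏ i ∈ Finset.range n, (1 - aa i) / 2) * (1 - (1 - aa n) / 2)

noncomputable def ff (ε : ℕ → Bool) : ℝ := ∑' n, if ε n = true then xx n else 0

lemma aa_mem (n : ℕ) : 0 < aa n ∧ aa n < 1 := by
  unfold aa; split_ifs <;> norm_num

lemma aa_add_two (n : ℕ) : aa (n + 2) = aa n := by
  unfold aa; simp [Nat.add_mod_right]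

lemma xx_zero : xx 0 = 5 / 9 := by
  unfold xx aa; norm_num

lemma xx_one : xx 1 = 1 / 3 := by
  unfold xx aa; norm_num

lemma xx_add_two (n : ℕ) : xx (n + 2) = xx n / 9 := by
  unfold xx
  rw [Finset.prod_range_succ', Finset.prod_range_succ']
  have h : ∀ i, aa (i + 1 + 1) = aa i := fun i => aa_add_two i
  simp only [h]
  have h0 : aa 0 = 1 / 9 := by unfold aa; norm_num
  have h1 : aa (0 + 1) = 1 / 2 := by unfold aa; norm_num
  rw [h0, h1]; ring

lemma xx_bounds (n : ℕ) : 0 ≤ xx n ∧ xx n ≤ (1 / 2) ^ n := by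
  induction n using Nat.twoStepInduction with
  | zero => rw [xx_zero]; norm_num
  | one => rw [xx_one]; norm_num
  | more n ih _ =>
    rw [xx_add_two]
    obtain ⟨h1, h2⟩ := ih
    have : (0 : ℝ) < (1 / 2) ^ n := by positivity
    constructor
    · positivity
    · rw [pow_add]; nlinarith

lemma term_bound (ε : ℕ → Bool) (n : ℕ) :
    ‖(if ε n = true then xx n else 0 : ℝ)‖ ≤ (1 / 2) ^ n := by
  obtain ⟨h1, h2⟩ := xx_bounds n
  split_ifs
  · rw [Real.norm_eq_abs, abs_of_nonneg h1]; exact h2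
  · simp

lemma summ (ε : ℕ → Bool) : Summable (fun n => (if ε n = true then xx n else 0 : ℝ)) :=
  Summable.of_norm_bounded summable_geometric_two (term_bound ε)

lemma ff_step (ε : ℕ → Bool) :
    ff ε = ((if ε 0 = true then 5 else 0) + (if ε 1 = true then 3 else 0)
      + ff (fun n => ε (n + 2))) / 9 := by
  unfold ff
  rw [← (summ ε).sum_add_tsum_nat_add 2]
  have : ∀ n, (if ε (n + 2) = true then xx (n + 2) else 0 : ℝ)
      = (if ε (n + 2) = true then xx n else 0) / 9 := by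
    intro n; rw [xx_add_two]; split_ifs <;> simp
  simp only [this, tsum_div_const, Finset.sum_range_succ, Finset.sum_range_zero, xx_zero, xx_one]
  split_ifs <;> ring

lemma ff_nonneg (ε : ℕ → Bool) : 0 ≤ ff ε := by
  unfold ff
  refine tsum_nonneg fun n => ?_
  split_ifs
  · exact (xx_bounds n).1
  · exact le_rfl

lemma ff_true : ff (fun _ => true) = 1 := by
  have := ff_step (fun _ => true)
  simp only [if_true] at this
  linarith

lemma ff_le_one (ε : ℕ → Bool) : ff ε ≤ 1 := by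
  rw [← ff_true]
  unfold ff
  refine (summ ε).tsum_le_tsum (fun n => ?_) (summ _)
  simp only [if_true]
  split_ifs
  · exact le_rfl
  · exact (xx_bounds n).1

lemma ff_cont : Continuous ff := by
  unfold ff
  refine continuous_tsum (fun n => ?_) summable_geometric_two (fun n ε => term_bound ε n)
  exact (continuous_of_discreteTopology
    (f := fun b : Bool => (if b = true then xx n else 0 : ℝ))).comp (continuous_apply n)

def DD : Set ℝ := {z : ℝ | ∃ u ∈ Set.range ff, ∃ v ∈ Set.range ff, z = u - v}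

lemma DD_closed : IsClosed DD := by
  have hc : IsCompact (Set.range (fun p : (ℕ → Bool) × (ℕ → Bool) => ff p.1 - ff p.2)) :=
    isCompact_range ((ff_cont.comp continuous_fst).sub (ff_cont.comp continuous_snd))
  have : DD = Set.range (fun p : (ℕ → Bool) × (ℕ → Bool) => ff p.1 - ff p.2) := by
    ext z
    constructor
    · rintro ⟨u, ⟨e, rfl⟩, v, ⟨e', rfl⟩, rfl⟩
      exact ⟨(e, e'), rfl⟩
    · rintro ⟨⟨e, e'⟩, rfl⟩
      exact ⟨_, ⟨e, rfl⟩, _, ⟨e', rfl⟩, rfl⟩
  rw [this]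
  exact hc.isClosed

lemma DD_bound {z : ℝ} (hz : z ∈ DD) : -1 ≤ z ∧ z ≤ 1 := by
  obtain ⟨u, ⟨e, rfl⟩, v, ⟨e', rfl⟩, rfl⟩ := hz
  have := ff_nonneg e
  have := ff_nonneg e'
  have := ff_le_one e
  have := ff_le_one e'
  constructor <;> linarith

lemma DD_down {z : ℝ} (hz : z ∈ DD) :
    ∃ d : ℝ, (d = 0 ∨ d = 2 ∨ d = -2 ∨ d = 3 ∨ d = -3 ∨ d = 5 ∨ d = -5 ∨ d = 8 ∨ d = -8) ∧
      9 * z - d ∈ DD := by
  obtain ⟨u, ⟨e, rfl⟩, v, ⟨e', rfl⟩, rfl⟩ := hz
  refine ⟨((if e 0 = true then 5 else 0) + (if e 1 = true then 3 else 0))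
    - ((if e' 0 = true then 5 else 0) + (if e' 1 = true then 3 else 0)), ?_, ?_⟩
  · split_ifs <;> norm_num
  · refine ⟨_, ⟨fun n => e (n + 2), rfl⟩, _, ⟨fun n => e' (n + 2), rfl⟩, ?_⟩
    rw [ff_step e, ff_step e']; ring

def cons2 (b c : Bool) (e : ℕ → Bool) : ℕ → Bool
  | 0 => b
  | 1 => c
  | (n + 2) => e n

lemma ff_cons2 (b c : Bool) (e : ℕ → Bool) :
    ff (cons2 b c e) = ((if b = true then 5 else 0) + (if c = true then 3 else 0) + ff e) / 9 := by
  rw [ff_step]; rfl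

lemma DD_up' {w : ℝ} (hw : w ∈ DD) (b c b' c' : Bool) :
    (((if b = true then 5 else 0) + (if c = true then 3 else 0))
      - ((if b' = true then 5 else 0) + (if c' = true then 3 else 0)) + w) / 9 ∈ DD := by
  obtain ⟨u, ⟨e, rfl⟩, v, ⟨e', rfl⟩, rfl⟩ := hw
  refine ⟨_, ⟨cons2 b c e, rfl⟩, _, ⟨cons2 b' c' e', rfl⟩, ?_⟩
  rw [ff_cons2, ff_cons2]; ring

lemma DD_up {w : ℝ} (hw : w ∈ DD) (d : ℝ)
    (hd : d = 0 ∨ d = 2 ∨ d = -2 ∨ d = 3 ∨ d = -3 ∨ d = 5 ∨ d = -5 ∨ d = 8 ∨ d = -8) :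
    (d + w) / 9 ∈ DD := by
  rcases hd with rfl | rfl | rfl | rfl | rfl | rfl | rfl | rfl | rfl
  · convert DD_up' hw false false false false using 3; norm_num
  · convert DD_up' hw true false false true using 3; norm_num
  · convert DD_up' hw false true true false using 3; norm_num
  · convert DD_up' hw false true false false using 3; norm_num
  · convert DD_up' hw false false false true using 3; norm_num
  · convert DD_up' hw true false false false using 3; norm_num
  · convert DD_up' hw false false true false using 3; norm_num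
  · convert DD_up' hw true true false false using 3; norm_num
  · convert DD_up' hw false false true true using 3; norm_num

lemma DD_gap {z : ℝ} (h1 : 6 / 9 < z) (h2 : z < 7 / 9) : z ∉ DD := by
  intro hz
  obtain ⟨d, hd, hw⟩ := DD_down hz
  obtain ⟨h3, h4⟩ := DD_bound hw
  rcases hd with rfl | rfl | rfl | rfl | rfl | rfl | rfl | rfl | rfl <;> linarith

lemma DD_gap_seq (k : ℕ) : (13 / 18 : ℝ) * (1 / 9) ^ k ∉ DD := by
  induction k with
  | zero => exact DD_gap (by norm_num) (by norm_num)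
  | succ k ih =>
    intro hz
    obtain ⟨d, hd, hw⟩ := DD_down hz
    obtain ⟨h3, h4⟩ := DD_bound hw
    have hp : (0 : ℝ) < (1 / 9) ^ k := by positivity
    have hp1 : ((1 / 9 : ℝ)) ^ k ≤ 1 := pow_le_one₀ (by norm_num) (by norm_num)
    have he : 9 * ((13 / 18 : ℝ) * (1 / 9) ^ (k + 1)) = 13 / 18 * (1 / 9) ^ k := by
      rw [pow_succ]; ring
    rw [he] at hw h3 h4
    rcases hd with rfl | rfl | rfl | rfl | rfl | rfl | rfl | rfl | rfl
    · exact ih (by simpa using hw)
    all_goals linarith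

lemma zero_not_mem : (0 : ℝ) ∉ interior DD := by
  intro h
  rw [mem_interior_iff_mem_nhds] at h
  have ht : Filter.Tendsto (fun k : ℕ => (13 / 18 : ℝ) * (1 / 9) ^ k) Filter.atTop (nhds 0) := by
    have := (tendsto_pow_atTop_nhds_zero_of_lt_one (r := (1 / 9 : ℝ)) (by norm_num)
      (by norm_num)).const_mul (13 / 18 : ℝ)
    simpa using this
  obtain ⟨k, hk⟩ := (ht.eventually_mem h).exists
  exact DD_gap_seq k hk

def EE : Set ℝ := {y : ℝ | y ∈ DD ∨ y - 1 ∈ DD}

lemma EE_closed : IsClosed EE := by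
  have h1 : IsClosed {y : ℝ | y - 1 ∈ DD} :=
    DD_closed.preimage (continuous_id.sub continuous_const)
  exact DD_closed.union h1

lemma EE_aux {w : ℝ} (hw : w ∈ DD) (n : ℕ) (hn : n ≤ 9) : ((n : ℝ) + w) / 9 ∈ EE := by
  have key : ∀ d : ℝ,
      (d = 0 ∨ d = 2 ∨ d = -2 ∨ d = 3 ∨ d = -3 ∨ d = 5 ∨ d = -5 ∨ d = 8 ∨ d = -8) →
      ((n : ℝ) = d ∨ (n : ℝ) = d + 9) → ((n : ℝ) + w) / 9 ∈ EE := by
    intro d hd h
    have := DD_up hw d hd
    rcases h with h | h
    · left; rw [h]; exact this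
    · right; rw [h]; convert this using 1; ring
  interval_cases n
  · exact key 0 (by norm_num) (by norm_num)
  · exact key (-8) (by norm_num) (by norm_num)
  · exact key 2 (by norm_num) (by norm_num)
  · exact key 3 (by norm_num) (by norm_num)
  · exact key (-5) (by norm_num) (by norm_num)
  · exact key 5 (by norm_num) (by norm_num)
  · exact key (-3) (by norm_num) (by norm_num)
  · exact key (-2) (by norm_num) (by norm_num)
  · exact key 8 (by norm_num) (by norm_num)
  · exact key 0 (by norm_num) (by norm_num)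

lemma EE_up {e : ℝ} (he : e ∈ EE) (n : ℕ) (hn : n ≤ 8) : ((n : ℝ) + e) / 9 ∈ EE := by
  rcases he with he | he
  · exact EE_aux he n (by omega)
  · have := EE_aux he (n + 1) (by omega)
    convert this using 2
    push_cast; ring

lemma zero_mem_DD : (0 : ℝ) ∈ DD :=
  ⟨_, ⟨fun _ => true, rfl⟩, _, ⟨fun _ => true, rfl⟩, by simp⟩

lemma EE_approx (k : ℕ) : ∀ y : ℝ, 0 ≤ y → y ≤ 1 → ∃ e ∈ EE, |y - e| ≤ (1 / 9) ^ k := by
  induction k with
  | zero =>
    intro y h0 h1
    refine ⟨0, Or.inl zero_mem_DD, ?_⟩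
    simp [abs_of_nonneg h0, h1]
  | succ k ih =>
    intro y h0 h1
    obtain ⟨n, hn, hn0, hn1⟩ : ∃ n : ℕ, n ≤ 8 ∧ 0 ≤ 9 * y - n ∧ 9 * y - n ≤ 1 := by
      by_cases h : y = 1
      · exact ⟨8, le_rfl, by rw [h]; norm_num, by rw [h]; norm_num⟩
      · have hy : y < 1 := lt_of_le_of_ne h1 h
        have h9 : 0 ≤ 9 * y := by linarith
        refine ⟨⌊9 * y⌋₊, ?_, ?_, ?_⟩
        · have : ⌊9 * y⌋₊ < 9 := (Nat.floor_lt h9).2 (by push_cast; linarith)
          omega
        · linarith [Nat.floor_le h9]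
        · linarith [Nat.lt_floor_add_one (9 * y)]
    obtain ⟨e, he, hd⟩ := ih _ hn0 hn1
    refine ⟨_, EE_up he n hn, ?_⟩
    have : y - ((n : ℝ) + e) / 9 = (9 * y - n - e) / 9 := by ring
    rw [this, abs_div, pow_succ]
    have : |(9 : ℝ)| = 9 := by norm_num
    rw [this]
    linarith

lemma EE_full {y : ℝ} (h0 : 0 ≤ y) (h1 : y ≤ 1) : y ∈ EE := by
  rw [← EE_closed.closure_eq, Metric.mem_closure_iff]
  intro ε hε
  obtain ⟨k, hk⟩ := exists_pow_lt_of_lt_one hε (show (1 / 9 : ℝ) < 1 by norm_num)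
  obtain ⟨e, he, hd⟩ := EE_approx k y h0 h1
  exact ⟨e, he, by rw [Real.dist_eq]; linarith⟩

lemma interior_nonempty : (interior DD).Nonempty := by
  have hsub : Set.Ioo (-1 / 3 : ℝ) (-2 / 9) ⊆ DD := by
    intro z hz
    obtain ⟨h1, h2⟩ := hz
    rcases EE_full (y := z + 1) (by linarith) (by linarith) with h | h
    · exact absurd h (DD_gap (by linarith) (by linarith))
    · simpa using h
  exact ⟨-5 / 18, interior_maximal hsub isOpen_Ioo ⟨by norm_num, by norm_num⟩⟩

end Pool.Agent.Lib.MP_def338_an
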