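import Pool.Agent.Lib.MP_def338_an.FamC

/-! The measure of the difference set of a central Cantor set near zero: general lemmas. -/

set_option autoImplicit false

namespace Pool.Agent.Lib.MP_def338_an

open Set Filter Topology MeasureTheory
open scoped Pointwise

/-- The differences of subsums of the terms with index at least `n`. -/
def DS (x : ℕ → ℝ) (n : ℕ) : Set ℝ :=
  range (fq fun j => x (j + n)) - range (fq fun j => x (j + n))

/-- Nonnegative summable sequences. -/
structure Ns (x : ℕ → ℝ) : Prop where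
  nn : ∀ n, 0 ≤ x n
  sm : Summable x

namespace Ns

variable {x : ℕ → ℝ} (h : Ns x)
include h

theorem shift (n : ℕ) : Ns fun j => x (j + n) :=
  ⟨fun _ => h.nn _, (summable_nat_add_iff n).2 h.sm⟩

theorem term (ε : ℕ → Bool) (n : ℕ) :
    0 ≤ (if ε n = true then x n else 0) ∧ (if ε n = true then x n else 0) ≤ x n := by
  split_ifs
  exacts [⟨h.nn n, le_rfl⟩, ⟨le_rfl, h.nn n⟩]

theorem summ (ε : ℕ → Bool) : Summable fun n => (if ε n = true then x n else 0 : ℝ) :=
  h.sm.of_nonneg_of_le (fun n => (h.term ε n).1) fun n => (h.term ε n).2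

theorem step (n : ℕ) (ε : ℕ → Bool) : fq (fun j => x (j + n)) ε =
    (if ε 0 = true then x n else 0) + fq (fun j => x (j + (n + 1))) fun j => ε (j + 1) := by
  unfold fq
  rw [((h.shift n).summ ε).tsum_eq_zero_add]
  simp only [zero_add, add_assoc, add_comm 1 n]

theorem cpt (n : ℕ) : IsCompact (DS x n) := by
  have hc : Continuous (fq fun j => x (j + n)) :=
    continuous_tsum (fun j => (continuous_of_discreteTopology
      (f := fun b : Bool => (if b = true then x (j + n) else 0 : ℝ))).comp (continuous_apply j))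
      (h.shift n).sm fun j ε => (Real.norm_of_nonneg ((h.shift n).term ε j).1).trans_le
        ((h.shift n).term ε j).2
  rw [show DS x n = range (fq fun j => x (j + n)) + -range (fq fun j => x (j + n)) from
    sub_eq_add_neg _ _]
  exact (isCompact_range hc).add (isCompact_range hc).neg

theorem bd {n : ℕ} {z : ℝ} (hz : z ∈ DS x n) : |z| ≤ ∑' j, x (j + n) := by
  obtain ⟨_, ⟨e, rfl⟩, _, ⟨e', rfl⟩, rfl⟩ := hz
  have a : ∀ ε, 0 ≤ fq (fun j => x (j + n)) ε ∧ fq (fun j => x (j + n)) ε ≤ ∑' j, x (j + n) :=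
    fun ε => ⟨tsum_nonneg fun j => ((h.shift n).term ε j).1,
      ((h.shift n).summ ε).tsum_le_tsum (fun j => ((h.shift n).term ε j).2) (h.shift n).sm⟩
  beta_reduce
  exact abs_le.2 ⟨by linarith [a e, a e'], by linarith [a e, a e']⟩

theorem down {n : ℕ} {z : ℝ} (hz : z ∈ DS x n) :
    z ∈ DS x (n + 1) ∨ z - x n ∈ DS x (n + 1) ∨ z + x n ∈ DS x (n + 1) := by
  obtain ⟨_, ⟨e, rfl⟩, _, ⟨e', rfl⟩, rfl⟩ := hz
  have a : ∀ y, y = fq (fun j => x (j + (n + 1))) (fun j => e (j + 1)) -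
      fq (fun j => x (j + (n + 1))) (fun j => e' (j + 1)) → y ∈ DS x (n + 1) := fun y hy =>
    ⟨_, ⟨_, rfl⟩, _, ⟨_, rfl⟩, hy.symm⟩
  beta_reduce
  rw [h.step n e, h.step n e']
  split_ifs
  · exact Or.inl (a _ (by ring))
  · exact Or.inr (Or.inl (a _ (by ring)))
  · exact Or.inr (Or.inr (a _ (by ring)))
  · exact Or.inl (a _ (by ring))

theorem up {n : ℕ} {w : ℝ} (hw : w ∈ DS x (n + 1)) :
    w ∈ DS x n ∧ w + x n ∈ DS x n ∧ w - x n ∈ DS x n := by
  obtain ⟨_, ⟨e, rfl⟩, _, ⟨e', rfl⟩, rfl⟩ := hw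
  have a : ∀ b b' : Bool, (if b = true then x n else 0) + fq (fun j => x (j + (n + 1))) e -
      ((if b' = true then x n else 0) + fq (fun j => x (j + (n + 1))) e') ∈ DS x n :=
    fun b b' => ⟨_, ⟨fun j => Nat.casesOn j b e, rfl⟩, _, ⟨fun j => Nat.casesOn j b' e', rfl⟩, by
      beta_reduce
      rw [h.step n, h.step n]
      rfl⟩
  have a1 := a false false
  have a2 := a true false
  have a3 := a false true
  simp only [Bool.false_eq_true, if_true, if_false, zero_add] at a1 a2 a3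
  beta_reduce
  exact ⟨a1, by rwa [add_comm, ← add_sub_assoc], by rwa [sub_sub, add_comm _ (x n)]⟩

theorem sub_zero' (n : ℕ) : DS x n ⊆ DS x 0 := by
  induction n with
  | zero => exact Subset.rfl
  | succ n ih => exact fun w hw => ih (h.up hw).1

theorem vol (n : ℕ) : volume (DS x 0) ≤ 3 ^ n * volume (DS x n) := by
  induction n with
  | zero => simp
  | succ n ih =>
    refine ih.trans ?_
    rw [pow_succ, mul_assoc]
    refine mul_le_mul_right ?_ _
    have a : DS x n ⊆ DS x (n + 1) ∪ ((fun z => z + -x n) ⁻¹' DS x (n + 1) ∪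
        (fun z => z + x n) ⁻¹' DS x (n + 1)) := fun z hz => by
      simpa only [mem_union, mem_preimage, ← sub_eq_add_neg] using h.down hz
    refine (measure_mono a).trans ((measure_union_le _ _).trans
      ((add_le_add le_rfl (measure_union_le _ _)).trans ?_))
    rw [measure_preimage_add_right, measure_preimage_add_right]
    exact le_of_eq (by ring)

theorem lower (ht : ∀ n, ∑' j, x (j + n) ≤ (1 / 2) ^ n) {r : ℝ} (r0 : 0 < r) (r1 : r ≤ 1) :
    volume (DS x 0) * ENNReal.ofReal (r ^ Real.logb 2 3 / 3) ≤ volume (DS x 0 ∩ Icc (-r) r) := by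
  obtain ⟨n, n1, n2⟩ := exists_nat_pow_near_of_lt_one r0 r1 (by norm_num : (0 : ℝ) < 1 / 2)
    (by norm_num)
  have a1 : DS x (n + 1) ⊆ DS x 0 ∩ Icc (-r) r := fun z hz =>
    ⟨h.sub_zero' _ hz, abs_le.1 ((h.bd hz).trans ((ht _).trans n1.le))⟩
  have a2 : r ^ Real.logb 2 3 ≤ (1 / 3) ^ n := by
    refine (Real.rpow_le_rpow r0.le n2 (Real.logb_nonneg one_lt_two (by norm_num))).trans_eq ?_
    rw [← Real.rpow_pow_comm (by norm_num), Real.div_rpow zero_le_one zero_le_two, Real.one_rpow,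
      Real.rpow_logb two_pos (by norm_num) (by norm_num)]
  have a3 : (3 : ENNReal) ^ (n + 1) * ENNReal.ofReal (r ^ Real.logb 2 3 / 3) ≤ 1 := by
    rw [← ENNReal.ofReal_ofNat, ← ENNReal.ofReal_pow (by norm_num),
      ← ENNReal.ofReal_mul (by positivity), ENNReal.ofReal_le_one, pow_succ, mul_assoc,
      mul_div_cancel₀ _ (by norm_num)]
    refine (mul_le_mul_of_nonneg_left a2 (by positivity)).trans_eq ?_
    rw [← mul_pow]
    norm_num
  calc _ ≤ 3 ^ (n + 1) * volume (DS x (n + 1)) * ENNReal.ofReal (r ^ Real.logb 2 3 / 3) :=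
        mul_le_mul_left (h.vol _) _
    _ ≤ 1 * volume (DS x 0 ∩ Icc (-r) r) := by
        rw [mul_right_comm]
        exact mul_le_mul' a3 (measure_mono a1)
    _ = _ := one_mul _

/-- Terms `c * p n / 3 ^ n` with `p n` prime to `3` give interior points. -/
theorem int_ne {c : ℝ} (hc : 0 < c) {p : ℕ → ℤ} (hp : ∀ n, p n % 3 = 1)
    (hx : ∀ n, x n = c * p n / 3 ^ n) : (interior (DS x 0)).Nonempty := by
  have key : ∀ n : ℕ, ∀ w ∈ DS x n, ∀ N : ℤ, ∃ e ∈ DS x 0, ∃ z : ℤ,
      3 * c / 3 ^ n * N + w = e + z • (3 * c) := by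
    intro n
    induction n with
    | zero => exact fun w hw N => ⟨w, hw, N, by simp [mul_comm, add_comm]⟩
    | succ n ih =>
      intro w hw N
      have hpn := hp n
      have a : ∀ (ε M : ℤ), N = ε * p n + 3 * M → w + ε * x n ∈ DS x n → ∃ e ∈ DS x 0, ∃ z : ℤ,
          3 * c / 3 ^ (n + 1) * N + w = e + z • (3 * c) := fun ε M e1 e2 => by
        obtain ⟨e, he, z, e3⟩ := ih _ e2 M
        refine ⟨e, he, z, Eq.trans ?_ e3⟩
        rw [e1, hx]
        push_cast
        field_simp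
        ring
      rcases (by omega : N % 3 = 0 ∨ N % 3 = 1 ∨ N % 3 = 2) with b | b | b
      · exact a 0 (N / 3) (by omega) (by simpa using (h.up hw).1)
      · exact a 1 ((N - p n) / 3) (by omega) (by simpa using (h.up hw).2.1)
      · exact a (-1) ((N + p n) / 3) (by omega) (by simpa [sub_eq_add_neg] using (h.up hw).2.2)
  have hcl : IsClosed (DS x 0 + (AddSubgroup.zmultiples (3 * c) : Set ℝ)) :=
    AddSubgroup.isClosed_of_discrete.add_left_of_isCompact (h.cpt 0)
  have hU : ⋃ z : ℤ, {y | y - z • (3 * c) ∈ DS x 0} = univ := by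
    refine eq_univ_of_forall fun t => ?_
    have a : t ∈ DS x 0 + (AddSubgroup.zmultiples (3 * c) : Set ℝ) := by
      rw [← hcl.closure_eq]
      refine Metric.mem_closure_iff.2 fun ε hε => ?_
      obtain ⟨n, hn⟩ := pow_unbounded_of_one_lt (3 * c / ε) (by norm_num : (1 : ℝ) < 3)
      have u0 : 0 < 3 * c / 3 ^ n := by positivity
      have u1 : 3 * c / 3 ^ n < ε := by
        rw [div_lt_iff₀ hε] at hn
        rw [div_lt_iff₀ (by positivity)]
        linarith
      obtain ⟨e, he, z, e1⟩ := key n 0 ⟨_, ⟨fun _ => false, rfl⟩, _, ⟨_, rfl⟩, sub_self _⟩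
        ⌊t / (3 * c / 3 ^ n)⌋
      refine ⟨_, ⟨e, he, _, ⟨z, rfl⟩, rfl⟩, ?_⟩
      beta_reduce
      rw [← e1, add_zero, Real.dist_eq, abs_lt]
      generalize 3 * c / 3 ^ n = u at u0 u1
      have b1 := (le_div_iff₀ u0).1 (Int.floor_le (t / u))
      have b2 := (div_lt_iff₀ u0).1 (Int.lt_floor_add_one (t / u))
      constructor <;> linarith
    obtain ⟨e, he, _, ⟨z, rfl⟩, rfl⟩ := a
    exact mem_iUnion.2 ⟨z, by simpa using he⟩
  obtain ⟨z, y, hy⟩ := nonempty_interior_of_iUnion_of_closed (fun z : ℤ =>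
    (h.cpt 0).isClosed.preimage (continuous_id.sub continuous_const)) hU
  exact ⟨y - z • (3 * c), int_of_cont (g := fun t => t + z • (3 * c)) (by fun_prop)
    (by simpa using hy) fun t ht => by simpa using ht⟩

variable {ρ : ℝ} (ρ1 : ρ < 1 / 2) (hρ : ∀ n, x (n + 1) ≤ ρ * x n)
include ρ1 hρ

theorem tail (n : ℕ) : ∑' j, x (j + (n + 1)) ≤ 2 * ρ * x n := by
  have a1 : ∑' j, x (j + (n + 1)) ≤ ρ * ∑' j, x (j + n) := by
    rw [← tsum_mul_left]
    exact (h.shift _).sm.tsum_le_tsum (fun j => hρ (j + n)) ((h.shift n).sm.mul_left ρ)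
  have a2 : 0 ≤ ∑' j, x (j + (n + 1)) := tsum_nonneg fun j => h.nn _
  rw [(h.shift n).sm.tsum_eq_zero_add] at a1
  simp only [zero_add, add_assoc, add_comm 1 n] at a1
  nlinarith

theorem isolate {n : ℕ} {z : ℝ} (hz : z ∈ DS x 0) (h1 : |z| < (1 - 2 * ρ) * x n) :
    |z| ≤ 2 * x (n + 1) := by
  have anti : Antitone x := antitone_nat_of_succ_le fun j => by nlinarith [hρ j, h.nn j]
  have key : ∀ m ≤ n + 1, z ∈ DS x m := by
    intro m hm
    induction m with
    | zero => exact hz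
    | succ m ih =>
      have a1 := h.tail ρ1 hρ m
      have a2 : (1 - 2 * ρ) * x n ≤ (1 - 2 * ρ) * x m :=
        mul_le_mul_of_nonneg_left (anti (by omega)) (by linarith)
      have a3 := abs_lt.1 h1
      rcases h.down (ih (by omega)) with b | b | b
      · exact b
      · linarith [(abs_le.1 (h.bd b)).1]
      · linarith [(abs_le.1 (h.bd b)).2]
  have a1 := h.bd (key _ le_rfl)
  have a2 := h.tail ρ1 hρ (n + 1)
  rw [(h.shift (n + 1)).sm.tsum_eq_zero_add] at a1
  simp only [zero_add, add_assoc, add_comm 1 (n + 1)] at a1 a2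
  nlinarith [h.nn (n + 1)]

end Ns

end Pool.Agent.Lib.MP_def338_an
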