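import Pool.Agent.Lib.MP_def338_an.Ex

/-! The measure of the difference set of a central Cantor set near zero: the construction. -/

set_option autoImplicit false

namespace Pool.Agent.Lib.MP_def338_an

open Set Filter Topology MeasureTheory
open scoped Pointwise

theorem Ns.subsums {x : ℕ → ℝ} (h : Ns x) (y : ℕ → ℝ) (hy : ∀ n, y (n + 1) = x n) :
    {s : ℝ | ∃ A : Set ℕ, (∀ j ∈ A, 1 ≤ j) ∧ HasSum (fun j : A => y j) s} = range (fq x) := by
  classical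
  have key : ∀ (A : Set ℕ) (ε : ℕ → Bool), 0 ∉ A → (∀ n, n + 1 ∈ A ↔ ε n = true) →
      HasSum (fun j : A => y j) (fq x ε) := by
    intro A ε h0 hA
    have h1 : HasSum (fun n => A.indicator y (n + 1)) (fq x ε) := by
      have : (fun n => A.indicator y (n + 1)) = fun n => if ε n = true then x n else 0 := by
        funext n
        simp only [indicator_apply, hA, hy]
      rw [this]
      exact (h.summ ε).hasSum
    have h2 := (hasSum_nat_add_iff (f := A.indicator y) 1).1 h1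
    simp only [Finset.range_one, Finset.sum_singleton, indicator_of_notMem h0, add_zero] at h2
    exact hasSum_subtype_iff_indicator.2 h2
  ext s
  constructor
  · rintro ⟨A, hA, hs⟩
    exact ⟨fun n => decide (n + 1 ∈ A),
      (key A _ (fun h => by simpa using hA 0 h) fun n => by simp).unique hs⟩
  · rintro ⟨ε, rfl⟩
    exact ⟨{j | 1 ≤ j ∧ ε (j - 1) = true}, fun j hj => hj.1, key _ ε (by simp) fun n => by simp⟩

/-- The terms of a central Cantor set: the tail after `n` terms is at most `2 ^ (-n)`. -/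
theorem ns_of {a lam x : ℕ → ℝ} (ha : ∀ n, 0 < a n ∧ a n < 1) (hlam : ∀ n, lam n = (1 - a n) / 2)
    (hx : ∀ n, x n = (∏ i ∈ Finset.Ico 1 n, lam i) * (1 - lam n)) :
    Ns (fun n => x (n + 1)) ∧ ∀ n, ∑' j, x (j + n + 1) ≤ (1 / 2) ^ n := by
  have l : ∀ n, 0 ≤ lam n ∧ lam n ≤ 1 / 2 := fun n => by
    rw [hlam]
    constructor <;> linarith [ha n]
  obtain ⟨P, hP⟩ : ∃ P : ℕ → ℝ, ∀ n, P n = ∏ i ∈ Finset.Ico 1 (n + 1), lam i := ⟨_, fun _ => rfl⟩
  have P0 : ∀ n, 0 ≤ P n := fun n => hP n ▸ Finset.prod_nonneg fun i _ => (l i).1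
  have P1 : ∀ n, P (n + 1) = P n * lam (n + 1) := fun n => by
    rw [hP, hP, Finset.prod_Ico_succ_top (by omega)]
  have P2 : ∀ n, P n ≤ (1 / 2) ^ n := fun n => by
    induction n with
    | zero => simp [hP]
    | succ n ih =>
      rw [P1, pow_succ]
      exact mul_le_mul ih (l _).2 (l _).1 (by positivity)
  have e : ∀ n, x (n + 1) = P n - P (n + 1) := fun n => by
    rw [hx, P1, hP]
    ring
  have nn : ∀ n, 0 ≤ x (n + 1) := fun n => by
    rw [e, P1]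
    nlinarith [P0 n, l (n + 1)]
  have S : ∀ n m, ∑ j ∈ Finset.range m, x (j + n + 1) ≤ (1 / 2) ^ n := fun n m => by
    have : ∑ j ∈ Finset.range m, x (j + n + 1) = P n - P (m + n) := by
      induction m with
      | zero => simp
      | succ m ih =>
        rw [Finset.sum_range_succ, ih, e, add_right_comm]
        ring
    linarith [P0 (m + n), P2 n]
  exact ⟨⟨nn, summable_of_sum_range_le nn (S 0)⟩,
    fun n => Real.tsum_le_of_sum_range_le (fun j => nn _) (S n)⟩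

/-- A fast decreasing sequence with sum `1` is the sequence of terms of a central Cantor set. -/
theorem Ns.central {x : ℕ → ℝ} (h : Ns x) (pos : ∀ n, 0 < x n) (h1 : ∑' n, x n = 1) {ρ : ℝ}
    (ρ1 : ρ < 1 / 2) (hρ : ∀ n, x (n + 1) ≤ ρ * x n) :
    ∃ a : ℕ → ℝ, (∀ n, 0 < a n ∧ a n < 1) ∧ ∀ lam y : ℕ → ℝ, (∀ n, lam n = (1 - a n) / 2) →
      (∀ n, y n = (∏ i ∈ Finset.Ico 1 n, lam i) * (1 - lam n)) → ∀ n, y (n + 1) = x n := by
  obtain ⟨R, hR⟩ : ∃ R : ℕ → ℝ, ∀ n, R n = ∑' j, x (j + n) := ⟨_, fun _ => rfl⟩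
  have R0 : ∀ n, 0 < R n := fun n => hR n ▸ (h.shift n).sm.tsum_pos (fun j => h.nn _) 0 (pos _)
  have R1 : ∀ n, R n = x n + R (n + 1) := fun n => by
    rw [hR, hR, (h.shift n).sm.tsum_eq_zero_add]
    simp only [zero_add, add_assoc, add_comm 1 n]
  have R2 : ∀ n, R (n + 1) < x n := fun n => by
    have := h.tail ρ1 hρ n
    rw [← hR] at this
    nlinarith [pos n]
  refine ⟨fun n => 1 - 2 * R (n - 1 + 1) / R (n - 1), fun n => ⟨?_, ?_⟩, fun lam y hl hy => ?_⟩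
  · rw [sub_pos, div_lt_one (R0 _)]
    linarith [R1 (n - 1), R2 (n - 1)]
  · exact sub_lt_self _ (div_pos (by linarith [R0 (n - 1 + 1)]) (R0 _))
  have l : ∀ n, lam (n + 1) = R (n + 1) / R n := fun n => by
    simp only [hl, Nat.add_sub_cancel]
    ring
  have P : ∀ n, ∏ i ∈ Finset.Ico 1 (n + 1), lam i = R n := fun n => by
    induction n with
    | zero => simp [hR, h1]
    | succ n ih => rw [Finset.prod_Ico_succ_top (by omega), ih, l, mul_div_cancel₀ _ (R0 n).ne']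
  intro n
  rw [hy, P, l, mul_sub, mul_div_cancel₀ _ (R0 n).ne']
  linarith [R1 n]

/-- The construction: long stretches with ratio close to `1 / 2`, then one sudden drop. -/
theorem exists_seq {s : ℝ} (s0 : 0 < s) (hs : s < Real.logb 2 3) :
    ∃ (x : ℕ → ℝ) (ρ : ℝ), Ns x ∧ (∀ n, 0 < x n) ∧ ∑' n, x n = 1 ∧ ρ < 1 / 2 ∧
      (∀ n, x (n + 1) ≤ ρ * x n) ∧ (interior (DS x 0)).Nonempty ∧ ∀ δ : ℝ, 0 < δ →
        ∃ r : ℝ, 0 < r ∧ r < δ ∧ volume (DS x 0 ∩ Icc (-r) r) ≤ ENNReal.ofReal (r ^ s) := by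
  have s1 : ((1 : ℝ) / 3) ^ s⁻¹ < 1 / 2 := by
    rw [Real.rpow_inv_lt_iff_of_pos (by norm_num) (by norm_num) s0,
      Real.div_rpow zero_le_one zero_le_two, Real.one_rpow]
    exact one_div_lt_one_div_of_lt (by positivity)
      ((Real.lt_logb_iff_rpow_lt one_lt_two (by norm_num)).1 hs)
  obtain ⟨u, u1, u2⟩ := exists_between (max_lt s1 (by norm_num : (1 : ℝ) / 3 < 1 / 2))
  have u3 : 1 / 3 < u := (le_max_right _ _).trans_lt u1
  have u0 : 0 < u := by linarith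
  have u4 : 1 < 3 * u ^ s := by
    linarith [(Real.rpow_inv_lt_iff_of_pos (by norm_num) u0.le s0).1
      ((le_max_left _ _).trans_lt u1)]
  have t1 : 1 ≤ 3 * u := by linarith
  obtain ⟨b, b1, b2⟩ : ∃ b : ℕ, 1 < b ∧ (3 * u) ^ s < (3 * u ^ s) ^ b := by
    obtain ⟨b, hb⟩ := pow_unbounded_of_one_lt ((3 * u) ^ s) u4
    exact ⟨b + 2, by omega, hb.trans_le (pow_le_pow_right₀ u4.le (by omega))⟩
  obtain ⟨A, A1, A2⟩ : ∃ A : ℝ, 1 ≤ A ∧ A * (1 / 2 - u) = 2 :=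
    ⟨2 / (1 / 2 - u), (one_le_div (by linarith)).2 (by linarith), div_mul_cancel₀ _ (by linarith)⟩
  obtain ⟨k, hk⟩ : ∃ k : ℕ → ℕ, ∀ n, k n = n - b ^ Nat.log b n := ⟨_, fun _ => rfl⟩
  obtain ⟨p, hp⟩ : ∃ p : ℕ → ℤ, ∀ n, p n = 3 * ⌊A * (3 * u) ^ k n⌋ + 1 := ⟨_, fun _ => rfl⟩
  have T1 : ∀ n, 1 ≤ (3 * u) ^ k n := fun n => one_le_pow₀ t1
  have p1 : ∀ n, (p n : ℝ) ≤ 3 * (A * (3 * u) ^ k n) + 1 := fun n => by
    rw [hp]
    push_cast
    linarith [Int.floor_le (A * (3 * u) ^ k n)]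
  have p2 : ∀ n, 3 * (A * (3 * u) ^ k n) - 2 ≤ p n := fun n => by
    rw [hp]
    push_cast
    linarith [Int.lt_floor_add_one (A * (3 * u) ^ k n)]
  have p3 : ∀ n, A * (3 * u) ^ k n ≤ p n := fun n => by nlinarith [p2 n, T1 n]
  have p0 : ∀ n, (0 : ℝ) < p n := fun n => by nlinarith [p3 n, T1 n]
  have p4 : ∀ n, (p (n + 1) : ℝ) ≤ 3 * ((u + 1 / 2) / 2) * p n := fun n => by
    have a1 : k (n + 1) ≤ k n + 1 := by
      have := Nat.pow_le_pow_right b1.le (Nat.log_mono_right (b := b) (Nat.le_add_right n 1))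
      rw [hk, hk]
      omega
    have a2 := mul_le_mul_of_nonneg_left (pow_le_pow_right₀ t1 a1) (zero_le_one.trans A1)
    have a3 := mul_le_mul_of_nonneg_left (p2 n) (by linarith : 0 ≤ 3 * ((u + 1 / 2) / 2))
    have a4 : A * (1 / 2 - u) * (3 * u) ^ k n = 2 * (3 * u) ^ k n := by rw [A2]
    rw [pow_succ] at a2
    nlinarith [p1 (n + 1), T1 n]
  have y1 : ∀ n, (p (n + 1) : ℝ) / 3 ^ (n + 1) ≤ (u + 1 / 2) / 2 * (p n / 3 ^ n) := fun n =>
    (div_le_div_of_nonneg_right (p4 n) (by positivity)).trans_eq (by ring)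
  have y0 : ∀ n, 0 < (p n : ℝ) / 3 ^ n := fun n => div_pos (p0 n) (by positivity)
  have y2 : Summable fun n => (p n : ℝ) / 3 ^ n :=
    summable_of_ratio_norm_eventually_le (r := (u + 1 / 2) / 2) (by linarith)
      (Eventually.of_forall fun n => by
        rw [Real.norm_of_nonneg (y0 _).le, Real.norm_of_nonneg (y0 _).le]
        exact y1 n)
  have S0 := y2.tsum_pos (fun n => (y0 n).le) 0 (y0 0)
  obtain ⟨c, c0, c1⟩ : ∃ c : ℝ, 0 < c ∧ c * ∑' n, (p n : ℝ) / 3 ^ n = 1 :=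
    ⟨_, inv_pos.2 S0, inv_mul_cancel₀ S0.ne'⟩
  have h : Ns fun n => c * (p n / 3 ^ n) := ⟨fun n => (mul_pos c0 (y0 n)).le, y2.mul_left c⟩
  have ρ1 : (u + 1 / 2) / 2 < 1 / 2 := by linarith
  have hρ : ∀ n, c * (p (n + 1) / 3 ^ (n + 1)) ≤ (u + 1 / 2) / 2 * (c * (p n / 3 ^ n)) := fun n =>
    (mul_le_mul_of_nonneg_left (y1 n) c0.le).trans_eq (by ring)
  refine ⟨_, _, h, fun n => mul_pos c0 (y0 n), by rw [tsum_mul_left, c1], ρ1, hρ,
    h.int_ne c0 (p := p) (fun n => by rw [hp]; omega) fun n => by ring, fun δ hδ => ?_⟩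
  have G1 : 1 < (3 * u ^ s) ^ b / (3 * u) ^ s := (one_lt_div (by positivity)).2 b2
  obtain ⟨j1, hj1⟩ := pow_unbounded_of_one_lt (16 * c * A / c ^ s) G1
  obtain ⟨j2, hj2⟩ := Metric.tendsto_atTop.1 h.sm.tendsto_atTop_zero δ hδ
  obtain ⟨N, n, e1, e2, e3, e4, e5⟩ :
      ∃ N n : ℕ, n + 1 = b * N ∧ j1 ≤ N ∧ j2 ≤ n ∧ k (n + 1) = 0 ∧ n ≤ k n + N := by
    have a1 : j1 + j2 < b ^ (j1 + j2) := Nat.lt_pow_self b1
    have a2 : b ^ (j1 + j2 + 1) = b * b ^ (j1 + j2) := pow_succ' _ _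
    have a3 : 2 * b ^ (j1 + j2) ≤ b * b ^ (j1 + j2) := Nat.mul_le_mul_right _ b1
    have a4 : b ^ (j1 + j2 + 1) - 1 + 1 = b ^ (j1 + j2 + 1) := by omega
    have a5 := Nat.pow_le_pow_right b1.le (Nat.lt_succ_iff.1 (Nat.log_lt_of_lt_pow
      (by omega : b ^ (j1 + j2 + 1) - 1 ≠ 0)
      (by omega : b ^ (j1 + j2 + 1) - 1 < b ^ (j1 + j2 + 1))))
    refine ⟨b ^ (j1 + j2), b ^ (j1 + j2 + 1) - 1, by omega, by omega, by omega, ?_, ?_⟩
    · rw [a4, hk, Nat.log_pow b1, Nat.sub_self]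
    · rw [hk]
      omega
  have x0 := mul_pos c0 (y0 n)
  have x1 := hj2 n e3
  rw [Real.dist_eq, sub_zero, abs_of_pos x0] at x1
  have x2 : c * (p (n + 1) / 3 ^ (n + 1)) ≤ c * (4 * A / 3 ^ (b * N)) := by
    have a := p1 (n + 1)
    rw [e4, pow_zero] at a
    rw [← e1]
    gcongr
    linarith
  have x3 : c * (u ^ b / (3 * u)) ^ N ≤ (1 / 2 - u) / 2 * (c * (p n / 3 ^ n)) := by
    have a1 : u ^ (b * N) ≤ u ^ n := pow_le_pow_of_le_one u0.le (by linarith) (by omega)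
    have a2 : (3 * u) ^ n ≤ (3 * u) ^ k n * (3 * u) ^ N := by
      rw [← pow_add]
      exact pow_le_pow_right₀ t1 e5
    have a3 : (3 * u) ^ k n ≤ (1 / 2 - u) / 2 * p n := by
      have a4 : A * (1 / 2 - u) * (3 * u) ^ k n = 2 * (3 * u) ^ k n := by rw [A2]
      nlinarith [p3 n]
    calc _ = c * (u ^ (b * N) / (3 * u) ^ N) := by rw [div_pow, ← pow_mul]
      _ ≤ c * (u ^ n / (3 * u) ^ N) := by gcongr
      _ = c * ((3 * u) ^ n / (3 * u) ^ N / 3 ^ n) := by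
        rw [mul_pow 3 u n]
        field_simp
      _ ≤ c * ((1 / 2 - u) / 2 * p n / 3 ^ n) := by
        gcongr
        exact (div_le_of_le_mul₀ (by positivity) (by positivity) a2).trans a3
      _ = _ := by ring
  refine ⟨(1 / 2 - u) / 2 * (c * (p n / 3 ^ n)), mul_pos (by linarith) x0, by nlinarith, ?_⟩
  have z1 : DS (fun n => c * (p n / 3 ^ n)) 0 ∩ Icc (-((1 / 2 - u) / 2 * (c * (p n / 3 ^ n))))
      ((1 / 2 - u) / 2 * (c * (p n / 3 ^ n))) ⊆
      Icc (-(2 * (c * (4 * A / 3 ^ (b * N))))) (2 * (c * (4 * A / 3 ^ (b * N)))) := fun z hz =>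
    abs_le.1 ((h.isolate ρ1 hρ (n := n) hz.1 ((abs_le.2 hz.2).trans_lt (by nlinarith))).trans
      (by linarith))
  refine (measure_mono z1).trans ?_
  rw [Real.volume_Icc]
  refine ENNReal.ofReal_le_ofReal (le_trans ?_ (Real.rpow_le_rpow (by positivity) x3 s0.le))
  have z2 := (div_lt_iff₀ (by positivity)).1 (hj1.trans_le (pow_le_pow_right₀ G1.le e2))
  rw [Real.mul_rpow c0.le (by positivity), ← Real.rpow_pow_comm (by positivity),
    Real.div_rpow (by positivity) (by positivity), ← Real.rpow_pow_comm u0.le]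
  calc _ = 16 * c * A / 3 ^ (b * N) := by ring
    _ ≤ ((3 * u ^ s) ^ b / (3 * u) ^ s) ^ N * c ^ s / 3 ^ (b * N) := by gcongr
    _ = _ := by
      rw [mul_pow, mul_div_assoc (3 ^ b), mul_pow, ← pow_mul]
      field_simp

end Pool.Agent.Lib.MP_def338_an
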