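import Pool.Agent.Lib.MP_def338_an.ExB

/-! The measure of the difference set of a central Cantor set near zero: the lower bound. -/

set_option autoImplicit false

namespace Pool.Agent.Lib.MP_def338_an

open Set Filter Topology MeasureTheory
open scoped Pointwise

theorem Ns.tail_step {x : ℕ → ℝ} (h : Ns x) (n : ℕ) :
    ∑' j, x (j + n) = x n + ∑' j, x (j + (n + 1)) := by
  rw [(h.shift n).sm.tsum_eq_zero_add]
  simp only [zero_add, add_assoc, add_comm 1 n]

/-- Slowly decreasing terms: the difference set is an interval. -/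
theorem Ns.fill {x : ℕ → ℝ} (h : Ns x) {m : ℕ} (hm : ∀ n, m ≤ n → x n ≤ 2 * ∑' j, x (j + (n + 1)))
    {z : ℝ} (hz : |z| ≤ ∑' j, x (j + m)) : z ∈ DS x m := by
  have key : ∀ k, ∃ w, |w| ≤ ∑' j, x (j + (m + k)) ∧ ∀ v ∈ DS x (m + k), z - w + v ∈ DS x m := by
    intro k
    induction k with
    | zero => exact ⟨z, hz, fun v hv => by simpa using hv⟩
    | succ k ih =>
      obtain ⟨w, w1, w2⟩ := ih
      have a1 := hm (m + k) (by omega)
      rw [h.tail_step, abs_le] at w1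
      rw [← add_assoc]
      rcases le_total w (-∑' j, x (j + (m + k + 1))) with b | b
      · refine ⟨w + x (m + k), abs_le.2 ⟨by linarith, by linarith⟩, fun v hv => ?_⟩
        rw [show z - (w + x (m + k)) + v = z - w + (v - x (m + k)) by ring]
        exact w2 _ (h.up hv).2.2
      rcases le_total w (∑' j, x (j + (m + k + 1))) with b' | b'
      · exact ⟨w, abs_le.2 ⟨b, b'⟩, fun v hv => w2 _ (h.up hv).1⟩
      · refine ⟨w - x (m + k), abs_le.2 ⟨by linarith, by linarith⟩, fun v hv => ?_⟩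
        rw [show z - (w - x (m + k)) + v = z - w + (v + x (m + k)) by ring]
        exact w2 _ (h.up hv).2.1
  rw [← (h.cpt m).isClosed.closure_eq]
  refine Metric.mem_closure_iff.2 fun ε hε => ?_
  obtain ⟨k, hk⟩ := Metric.tendsto_atTop.1 (tendsto_sum_nat_add x) ε hε
  obtain ⟨w, w1, w2⟩ := key k
  have a := hk (m + k) (by omega)
  refine ⟨_, w2 0 ⟨_, ⟨fun _ => false, rfl⟩, _, ⟨_, rfl⟩, sub_self _⟩, ?_⟩
  rw [Real.dist_eq, sub_zero] at a
  rw [Real.dist_eq, add_zero, sub_sub_cancel]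
  exact (w1.trans (le_abs_self _)).trans_lt a

/-- A difference set of positive measure is never `r ^ (log₂ 3)`-thin at small scales. -/
theorem Ns.thick {x : ℕ → ℝ} (h : Ns x) (pos : ∀ n, 0 < x n)
    (h1 : ∀ n, ∑' j, x (j + (n + 1)) ≤ x n) (hK : 0 < volume (DS x 0)) : ∃ δ : ℝ, 0 < δ ∧
      ∀ r, 0 < r → r < δ → ENNReal.ofReal (r ^ Real.logb 2 3) < volume (DS x 0 ∩ Icc (-r) r) := by
  have l1 : 1 ≤ Real.logb 2 3 :=
    (Real.le_logb_iff_rpow_le one_lt_two (by norm_num)).2 (by norm_num)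
  obtain ⟨R, hR⟩ : ∃ R : ℕ → ℝ, ∀ n, R n = ∑' j, x (j + n) := ⟨_, fun _ => rfl⟩
  have R0 : ∀ n, 0 < R n := fun n => hR n ▸ (h.shift n).sm.tsum_pos (fun j => h.nn _) 0 (pos _)
  have R1 : ∀ n, R n = x n + R (n + 1) := fun n => by rw [hR, hR, h.tail_step]
  simp only [← hR] at h1
  by_cases hc : ∃ m, ∀ n, m ≤ n → x n ≤ 2 * R (n + 1)
  · obtain ⟨m, hm⟩ := hc
    refine ⟨min (R m) 1, lt_min (R0 m) one_pos, fun r r0 r1 => ?_⟩
    rw [lt_min_iff] at r1
    have a : Icc (-r) r ⊆ DS x 0 := fun z hz => h.sub_zero' m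
      (h.fill (by simpa only [← hR] using hm) (hR m ▸ (abs_le.2 hz).trans r1.1.le))
    rw [inter_eq_right.2 a, Real.volume_Icc, ENNReal.ofReal_lt_ofReal_iff (by linarith)]
    linarith [(Real.rpow_le_rpow_of_exponent_ge r0 r1.2.le l1).trans_eq (Real.rpow_one r)]
  push Not at hc
  have anti : Antitone fun n => 2 ^ n * R n := antitone_nat_of_succ_le fun n => by
    rw [pow_succ, mul_assoc]
    exact mul_le_mul_of_nonneg_left (by linarith [R1 n, h1 n]) (by positivity)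
  have small : ∀ j, ∃ m, 2 ^ m * R m ≤ (2 / 3) ^ j * R 0 := fun j => by
    induction j with
    | zero => exact ⟨0, by simp⟩
    | succ j ih =>
      obtain ⟨m, hm⟩ := ih
      obtain ⟨n, n1, n2⟩ := hc m
      have a : 2 ^ n * (2 * R (n + 1)) ≤ 2 ^ n * (2 / 3 * R n) :=
        mul_le_mul_of_nonneg_left (by linarith [R1 n]) (by positivity)
      have b : 2 ^ n * R n ≤ 2 ^ m * R m := anti n1
      exact ⟨n + 1, by rw [pow_succ, pow_succ]; linarith⟩
  obtain ⟨v, -, v0, v1⟩ := ENNReal.lt_iff_exists_real_btwn.1 hK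
  rw [ENNReal.ofReal_pos] at v0
  obtain ⟨j, hj⟩ := exists_pow_lt_of_lt_one (div_pos (lt_min one_pos (div_pos v0 three_pos)) (R0 0))
    (by norm_num : (2 : ℝ) / 3 < 1)
  obtain ⟨m, hm⟩ := small j
  have hε := lt_min_iff.1 (hm.trans_lt ((lt_div_iff₀ (R0 0)).1 hj))
  refine ⟨R m, R0 m, fun r r0 r1 => lt_of_not_ge fun hv => ?_⟩
  have ex : ∃ k, R (m + k + 1) ≤ r := by
    obtain ⟨k, hk⟩ := Metric.tendsto_atTop.1 (tendsto_sum_nat_add x) r r0
    have a := hk (m + k + 1) (by omega)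
    rw [Real.dist_eq, sub_zero, ← hR] at a
    exact ⟨k, (le_abs_self _).trans a.le⟩
  classical
  obtain ⟨n, n1, n2, n3⟩ : ∃ n, m ≤ n ∧ R (n + 1) ≤ r ∧ r < R n := by
    refine ⟨m + Nat.find ex, by omega, Nat.find_spec ex, ?_⟩
    rcases e : Nat.find ex with _ | k
    · exact r1
    · exact lt_of_not_ge (Nat.find_min ex (by omega : k < Nat.find ex))
  have a1 : DS x (n + 1) ⊆ DS x 0 ∩ Icc (-r) r := fun z hz =>
    ⟨h.sub_zero' _ hz, abs_le.1 ((h.bd hz).trans (hR _ ▸ n2))⟩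
  have a2 : 2 ^ n * r ≤ 2 ^ m * R m :=
    (mul_le_mul_of_nonneg_left n3.le (by positivity)).trans (anti n1)
  have a3 : 3 ^ n * r ^ Real.logb 2 3 ≤ v / 3 := by
    have b := Real.rpow_le_rpow_of_exponent_ge (by positivity) (a2.trans hε.1.le) l1
    rw [Real.rpow_one, Real.mul_rpow (by positivity) r0.le, ← Real.rpow_pow_comm zero_le_two,
      Real.rpow_logb two_pos (by norm_num) (by norm_num)] at b
    linarith [hε.2]
  refine v1.not_ge ((h.vol (n + 1)).trans ((mul_le_mul_right ((measure_mono a1).trans hv) _).trans ?_))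
  rw [← ENNReal.ofReal_ofNat, ← ENNReal.ofReal_pow (by norm_num),
    ← ENNReal.ofReal_mul (by positivity), pow_succ]
  exact ENNReal.ofReal_le_ofReal (by linarith)

/-- The terms of a central Cantor set are positive and dominate their tails. -/
theorem ns_of' {a lam x : ℕ → ℝ} (ha : ∀ n, 0 < a n ∧ a n < 1) (hlam : ∀ n, lam n = (1 - a n) / 2)
    (hx : ∀ n, x n = (∏ i ∈ Finset.Ico 1 n, lam i) * (1 - lam n)) :
    (∀ n, 0 < x (n + 1)) ∧ ∀ n, ∑' j, x (j + (n + 1) + 1) ≤ x (n + 1) := by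
  have l : ∀ n, 0 < lam n ∧ lam n ≤ 1 / 2 := fun n => by
    rw [hlam]
    constructor <;> linarith [ha n]
  obtain ⟨P, hP⟩ : ∃ P : ℕ → ℝ, ∀ n, P n = ∏ i ∈ Finset.Ico 1 (n + 1), lam i := ⟨_, fun _ => rfl⟩
  have P0 : ∀ n, 0 < P n := fun n => hP n ▸ Finset.prod_pos fun i _ => (l i).1
  have P1 : ∀ n, P (n + 1) = P n * lam (n + 1) := fun n => by
    rw [hP, hP, Finset.prod_Ico_succ_top (by omega)]
  have e : ∀ n, x (n + 1) = P n - P (n + 1) := fun n => by
    rw [hx, P1, hP]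
    ring
  have nn : ∀ n, P (n + 1) ≤ x (n + 1) := fun n => by
    rw [e, P1]
    nlinarith [P0 n, l (n + 1)]
  refine ⟨fun n => (P0 _).trans_le (nn n), fun n => Real.tsum_le_of_sum_range_le
    (fun j => ((P0 _).trans_le (nn _)).le) fun m => ?_⟩
  have : ∑ j ∈ Finset.range m, x (j + (n + 1) + 1) = P (n + 1) - P (m + (n + 1)) := by
    induction m with
    | zero => simp
    | succ m ih =>
      rw [Finset.sum_range_succ, ih, e, add_right_comm m 1]
      ring
  linarith [P0 (m + (n + 1)), nn n]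

end Pool.Agent.Lib.MP_def338_an
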