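import Pool.Agent.Lib.MP_def338_an.Basic

set_option autoImplicit false

namespace Pool.Agent.Lib.MP_def338_an

lemma DD_neg {z : ℝ} (hz : z ∈ DD) : -z ∈ DD := by
  obtain ⟨u, hu, v, hv, rfl⟩ := hz
  exact ⟨v, hv, u, hu, by ring⟩

lemma Icc_subset_DD : Set.Icc (2 / 9 : ℝ) (1 / 3) ⊆ DD := by
  have hsub : Set.Ioo (2 / 9 : ℝ) (1 / 3) ⊆ DD := by
    intro z hz
    obtain ⟨h1, h2⟩ := hz
    rcases EE_full (y := -z + 1) (by linarith) (by linarith) with h | h
    · exact absurd h (DD_gap (by linarith) (by linarith))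
    · simpa using DD_neg h
  rw [← closure_Ioo (by norm_num)]
  exact DD_closed.closure_subset_iff.2 hsub

lemma DD_gaps (k : ℕ) : ∀ z : ℝ, 6 / 9 ^ (k + 1) < z → z < 7 / 9 ^ (k + 1) → z ∉ DD := by
  induction k with
  | zero => exact fun z h1 h2 => DD_gap (by simpa using h1) (by simpa using h2)
  | succ k ih =>
    intro z h1 h2 hz
    obtain ⟨d, hd, hw⟩ := DD_down hz
    obtain ⟨h3, h4⟩ := DD_bound hw
    have hp : (0 : ℝ) < 9 ^ (k + 1) := by positivity
    have hp1 : (1 : ℝ) ≤ 9 ^ (k + 1) := one_le_pow₀ (by norm_num)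
    have e1 : (6 : ℝ) / 9 ^ (k + 1) < 9 * z := by
      rw [pow_succ _ (k + 1), ← div_div, div_lt_iff₀ (by norm_num)] at h1
      linarith
    have e2 : 9 * z < (7 : ℝ) / 9 ^ (k + 1) := by
      rw [pow_succ _ (k + 1), ← div_div, lt_div_iff₀ (by norm_num)] at h2
      linarith
    have e3 : (0 : ℝ) < 6 / 9 ^ (k + 1) := by positivity
    have e4 : (7 : ℝ) / 9 ^ (k + 1) ≤ 7 / 9 := by
      refine div_le_div_of_nonneg_left (by norm_num) (by norm_num) ?_
      exact le_self_pow₀ (by norm_num) (Nat.succ_ne_zero k)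
    rcases hd with rfl | rfl | rfl | rfl | rfl | rfl | rfl | rfl | rfl
    · exact ih _ e1 e2 (by simpa using hw)
    all_goals linarith

lemma subsums_eq (x : ℕ → ℝ) (hx : ∀ n, x (n + 1) = xx n) :
    {s : ℝ | ∃ A : Set ℕ, (∀ j ∈ A, 1 ≤ j) ∧ HasSum (fun j : A => x j) s} = Set.range ff := by
  classical
  have key : ∀ (A : Set ℕ) (ε : ℕ → Bool), 0 ∉ A → (∀ n, n + 1 ∈ A ↔ ε n = true) →
      HasSum (fun j : A => x j) (ff ε) := by
    intro A ε h0 hA
    have h1 : HasSum (fun n => A.indicator x (n + 1)) (ff ε) := by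
      have : (fun n => A.indicator x (n + 1)) = fun n => if ε n = true then xx n else 0 := by
        funext n
        simp only [Set.indicator_apply, hA, hx]
      rw [this]
      exact (summ ε).hasSum
    have h2 := (hasSum_nat_add_iff (f := A.indicator x) 1).1 h1
    simp only [Finset.range_one, Finset.sum_singleton, Set.indicator_of_notMem h0,
      add_zero] at h2
    exact hasSum_subtype_iff_indicator.2 h2
  ext s
  constructor
  · rintro ⟨A, hA, hs⟩
    refine ⟨fun n => decide (n + 1 ∈ A), ?_⟩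
    exact (key A _ (fun h => by simpa using hA 0 h) (fun n => by simp)).unique hs
  · rintro ⟨ε, rfl⟩
    refine ⟨{j | 1 ≤ j ∧ ε (j - 1) = true}, fun j hj => hj.1, key _ ε (by simp) fun n => ?_⟩
    simp

end Pool.Agent.Lib.MP_def338_an
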