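import Mathlib

/-! Self-similar sets with digits `0, ±1, ±2, ±3, ±5`. -/

set_option autoImplicit false

namespace Pool.Agent.Lib.MP_def338_an

open Set Filter Topology

/-- The digits `0, ±1, ±2, ±3, ±5`. -/
def Dg (k : ℤ) : Prop := -5 ≤ k ∧ k ≤ 5 ∧ k ≠ 4 ∧ k ≠ -4

/-- `E` is the attractor in `[-1, 1]` of the maps `w ↦ (1 - q) / 5 * k + q * w`. -/
structure SS (q : ℝ) (E : Set ℝ) : Prop where
  q0 : 1 / 9 < q
  q1 : q < 1 / 7
  cpt : IsCompact E
  bot : -1 ∈ E
  bd : ∀ z ∈ E, -1 ≤ z ∧ z ≤ 1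
  neg : ∀ z ∈ E, -z ∈ E
  down : ∀ z ∈ E, ∃ k : ℤ, Dg k ∧ ∃ w ∈ E, z = (1 - q) / 5 * k + q * w
  up : ∀ k : ℤ, Dg k → ∀ w ∈ E, (1 - q) / 5 * k + q * w ∈ E

theorem int_of_cont {A B : Set ℝ} {g : ℝ → ℝ} (hg : Continuous g) {y : ℝ}
    (hy : g y ∈ interior A) (h : ∀ t, g t ∈ A → t ∈ B) : y ∈ interior B :=
  mem_interior_iff_mem_nhds.2
    (mem_of_superset (hg.continuousAt (mem_interior_iff_mem_nhds.1 hy)) h)

theorem box_finite (w : ℕ → ℝ) (m : ℕ) :
    {z : ℝ | ∃ u : ℕ → ℤ, (∀ i, |u i| ≤ 13) ∧ z = ∑ i ∈ Finset.range m, u i * w i}.Finite := by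
  induction m with
  | zero => exact (finite_singleton 0).subset fun z ⟨_, _, h⟩ => by simpa using h
  | succ m ih =>
    refine (ih.image2 (fun s (k : ℤ) => s + k * w m) (finite_Icc (-13) 13)).subset ?_
    rintro z ⟨u, hu, rfl⟩
    exact ⟨_, ⟨u, hu, rfl⟩, u m, abs_le.1 (hu m), (Finset.sum_range_succ _ _).symm⟩

theorem exists_digit (n : ℤ) (h1 : -104 ≤ n) (h2 : n ≤ 112) :
    ∃ k l : ℤ, Dg k ∧ |l| ≤ 13 ∧ n = k + 9 * l := by
  have h : n % 9 ≤ 3 ∨ n % 9 = 5 ∨ n % 9 = 4 ∨ 6 ≤ n % 9 := by omega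
  rcases h with h | h | h | h
  · exact ⟨n % 9, n / 9, by unfold Dg; omega, abs_le.2 (by omega), by omega⟩
  · exact ⟨n % 9, n / 9, by unfold Dg; omega, abs_le.2 (by omega), by omega⟩
  · exact ⟨n % 9 - 9, n / 9 + 1, by unfold Dg; omega, abs_le.2 (by omega), by omega⟩
  · exact ⟨n % 9 - 9, n / 9 + 1, by unfold Dg; omega, abs_le.2 (by omega), by omega⟩

/-- Division with remainder in a finite set of carries. -/
theorem exists_carry {b : ℝ} {d : ℕ} (hb : b ^ (d + 2) = 7 * b ^ (d + 1) + 9) :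
    ∃ B : Set ℝ, B.Finite ∧ 0 ∈ B ∧ ∀ z ∈ B, ∀ j : ℤ, 0 ≤ j → j ≤ 8 →
      ∃ k : ℤ, Dg k ∧ ∃ z' ∈ B, z + j = k + b * z' := by
  let w : ℕ → ℝ := fun i => match i with
    | 0 => 1
    | i + 1 => b ^ (i + 1) - 7 * b ^ i
  refine ⟨_, box_finite w (d + 2), ⟨0, by simp, by simp⟩, ?_⟩
  rintro z ⟨u, hu, rfl⟩ j j0 j1
  have h0 := abs_le.1 (hu 0)
  have h1 := abs_le.1 (hu 1)
  obtain ⟨k, l, hk, hl, e⟩ := exists_digit (j + u 0 - 7 * u 1) (by omega) (by omega)
  refine ⟨k, hk, _, ⟨fun i => if i < d + 1 then u (i + 1) else l, fun i => ?_, rfl⟩, ?_⟩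
  · beta_reduce
    split_ifs
    exacts [hu _, hl]
  have e1 : ∑ i ∈ Finset.range (d + 1), ((if i < d + 1 then u (i + 1) else l : ℤ) : ℝ) * w i =
      ∑ i ∈ Finset.range (d + 1), (u (i + 1) : ℝ) * w i :=
    Finset.sum_congr rfl fun i hi => by rw [if_pos (Finset.mem_range.1 hi)]
  have e2 : b * ∑ i ∈ Finset.range d, (u (i + 1 + 1) : ℝ) * w (i + 1) =
      ∑ i ∈ Finset.range d, (u (i + 1 + 1) : ℝ) * w (i + 1 + 1) := by
    rw [Finset.mul_sum]
    refine Finset.sum_congr rfl fun i _ => ?_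
    simp only [w]
    ring
  have e3 : (j : ℝ) + u 0 - 7 * u 1 = k + 9 * l := by exact_mod_cast e
  rw [Finset.sum_range_succ (fun i => ((if i < d + 1 then u (i + 1) else l : ℤ) : ℝ) * w i), e1,
    if_neg (lt_irrefl _), Finset.sum_range_succ', Finset.sum_range_succ', Finset.sum_range_succ',
    ← e2]
  simp only [w]
  linear_combination e3 - l * hb

namespace SS

variable {q : ℝ} {E : Set ℝ} (h : SS q E)
include h

theorem pos : 0 < q := lt_trans (by norm_num) h.q0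

theorem lim : Tendsto (fun n : ℕ => q ^ n) atTop (𝓝 0) :=
  tendsto_pow_atTop_nhds_zero_of_lt_one h.pos.le (h.q1.trans (by norm_num))

theorem small {ε : ℝ} (hε : 0 < ε) : ∃ n : ℕ, q ^ n < ε :=
  (h.lim.eventually (gt_mem_nhds hε)).exists

theorem pow_le (n : ℕ) : q ^ n ≤ 1 := pow_le_one₀ h.pos.le (h.q1.le.trans (by norm_num))

/-- The interior is not empty when `7 q + 9 q ^ (d + 2) = 1`. -/
theorem int_ne {d : ℕ} (hd : 7 * q + 9 * q ^ (d + 2) = 1) : (interior E).Nonempty := by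
  have q0 := h.pos
  have q1 := h.q1
  have hb : q⁻¹ ^ (d + 2) = 7 * q⁻¹ ^ (d + 1) + 9 := by
    rw [inv_pow, inv_pow]
    field_simp
    linear_combination -q ^ (d + 1) * hd
  obtain ⟨B, hB, h0, hs⟩ := exists_carry hb
  have hc : 0 < (1 - q) / 5 := by linarith
  have hc' : (1 - q) / 5 ≤ 1 / 5 := by linarith
  have hup := h.up
  generalize (1 - q) / 5 = c at hc hc' hup
  have key : ∀ n : ℕ, ∀ t ∈ Icc (0 : ℝ) 9, ∃ e ∈ E, ∃ z ∈ B,
      |c * t - (e + c * q⁻¹ * z)| ≤ 3 * q ^ n := by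
    intro n
    induction n with
    | zero =>
      refine fun t ht => ⟨-1, h.bot, 0, h0, abs_le.2 ⟨?_, ?_⟩⟩ <;> nlinarith [ht.1, ht.2]
    | succ n ih =>
      intro t ht
      obtain ⟨j, j0, j1, j2, j3⟩ : ∃ j : ℤ, 0 ≤ j ∧ j ≤ 8 ∧ (j : ℝ) ≤ t ∧ t ≤ j + 1 := by
        by_cases h8 : 8 ≤ t
        · exact ⟨8, by norm_num, le_rfl, by simpa using h8, by push_cast; linarith [ht.2]⟩
        · refine ⟨⌊t⌋, Int.floor_nonneg.2 ht.1, ?_, Int.floor_le t, (Int.lt_floor_add_one t).le⟩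
          exact (Int.floor_lt.2 (by push_cast; linarith)).le
      obtain ⟨e, he, z, hz, hh⟩ := ih ((t - j) / q) ⟨div_nonneg (by linarith) q0.le, by
        rw [div_le_iff₀ q0]
        linarith [h.q0]⟩
      obtain ⟨k, hk, z', hz', e1⟩ := hs z hz j j0 j1
      refine ⟨_, hup k hk e he, z', hz', ?_⟩
      have e2 : c * t - (c * k + q * e + c * q⁻¹ * z') =
          q * (c * ((t - j) / q) - (e + c * q⁻¹ * z)) := by
        have e3 : q * (c * ((t - j) / q) - (e + c * q⁻¹ * z)) = c * (t - j) - q * e - c * z := by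
          field_simp
          ring
        rw [e3]
        linear_combination c * e1
      rw [e2, abs_mul, abs_of_pos q0, pow_succ]
      nlinarith
  have hcz : ∀ z, IsClosed {y | y - c * q⁻¹ * z ∈ E} := fun z =>
    h.cpt.isClosed.preimage (continuous_id.sub continuous_const)
  have hW : ∀ s : Set ℝ, s.Finite → interior E = ∅ →
      interior (⋃ z ∈ s, {y | y - c * q⁻¹ * z ∈ E}) = ∅ := by
    intro s hs he
    induction s, hs using Set.Finite.induction_on with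
    | empty => simp
    | insert _ _ ih =>
      rw [biUnion_insert, interior_union_isClosed_of_interior_empty (hcz _) ih]
      refine eq_empty_of_forall_notMem fun y hy => ?_
      rename_i z _ _ _
      have := int_of_cont (B := E) (g := fun t => t + c * q⁻¹ * z) (y := y - c * q⁻¹ * z)
        (by fun_prop) (by simpa using hy) fun t ht => by simpa using ht
      rw [he] at this
      exact this
  have hcl : IsClosed (⋃ z ∈ B, {y | y - c * q⁻¹ * z ∈ E}) := hB.isClosed_biUnion fun z _ => hcz z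
  by_contra hne
  have h1 : c ∈ interior (⋃ z ∈ B, {y | y - c * q⁻¹ * z ∈ E}) := by
    refine int_of_cont (A := Icc 0 9) (g := fun y => y / c) (by fun_prop)
      (by simp [div_self hc.ne']) fun y hy => ?_
    rw [← hcl.closure_eq]
    refine Metric.mem_closure_iff.2 fun ε hε => ?_
    obtain ⟨n, hn⟩ := h.small (by positivity : 0 < ε / 3)
    obtain ⟨e, he, z, hz, hh⟩ := key n _ hy
    refine ⟨e + c * q⁻¹ * z, mem_biUnion hz (by simpa using he), ?_⟩
    rw [mul_div_cancel₀ _ hc.ne'] at hh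
    rw [Real.dist_eq]
    linarith
  rw [hW B hB (not_nonempty_iff_eq_empty.1 hne)] at h1
  exact h1

theorem cases_down {z : ℝ} (hz : z ∈ E) (m : ℤ) : ∃ w ∈ E,
    5 * z ≤ (1 - q) * (m - 1) + 5 * q ∨ 5 * z = (1 - q) * m + 5 * q * w ∨
      (1 - q) * (m + 1) + 5 * q * w ≤ 5 * z := by
  obtain ⟨k, -, w, hw, e⟩ := h.down z hz
  have q0 := h.pos
  have q1 := h.q1
  have hb := h.bd w hw
  refine ⟨w, hw, ?_⟩
  rcases lt_trichotomy k m with hk | rfl | hk
  · have : (k : ℝ) ≤ m - 1 := by exact_mod_cast (by omega : k ≤ m - 1)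
    exact Or.inl (by nlinarith)
  · exact Or.inr (Or.inl (by linarith))
  · have : (m : ℝ) + 1 ≤ k := by exact_mod_cast (by omega : m + 1 ≤ k)
    exact Or.inr (Or.inr (by nlinarith))

theorem cases_top {z : ℝ} (hz : z ∈ E) : ∃ w ∈ E,
    5 * z - 3 < 0 ∨ 5 * z - 3 = q * (5 * w - 3) ∨ 5 * z - 3 = 2 - 2 * q + q * (5 * w - 3) := by
  obtain ⟨k, hk, w, hw, e⟩ := h.down z hz
  have q0 := h.pos
  have q1 := h.q1
  have hb := h.bd w hw
  refine ⟨w, hw, ?_⟩
  rcases (by unfold Dg at hk; omega : k ≤ 2 ∨ k = 3 ∨ k = 5) with hk | rfl | rfl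
  · have : (k : ℝ) ≤ 2 := by exact_mod_cast hk
    exact Or.inl (by nlinarith)
  · exact Or.inr (Or.inl (by push_cast at e; linarith))
  · exact Or.inr (Or.inr (by push_cast at e; linarith))

theorem cases_bot {z : ℝ} (hz : z ∈ E) : (∃ w ∈ E, z + 1 = q * (w + 1)) ∨ -3 - 2 * q ≤ 5 * z := by
  obtain ⟨k, hk, w, hw, e⟩ := h.down z hz
  have q0 := h.pos
  have q1 := h.q1
  have hb := h.bd w hw
  rcases (by unfold Dg at hk; omega : k = -5 ∨ -3 ≤ k) with rfl | hk
  · exact Or.inl ⟨w, hw, by push_cast at e; linarith⟩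
  · have : (-3 : ℝ) ≤ k := by exact_mod_cast hk
    exact Or.inr (by nlinarith)

theorem gap_top {s : ℝ} (hs : (2 * q < s ∧ s < 2 - 10 * q) ∨
    (2 - 10 * q + 10 * q ^ 2 < s ∧ s < 2 - 8 * q - 2 * q ^ 2)) (m : ℕ) :
    ∀ z ∈ E, 5 * z - 3 ≠ q ^ m * s := by
  have q0 := h.pos
  have q1 := h.q1
  have s0 : 2 * q < s ∧ s < 2 := by rcases hs with hs | hs <;> constructor <;> nlinarith
  induction m with
  | zero =>
    intro z hz e
    obtain ⟨w, hw, a | a | a⟩ := h.cases_top hz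
    · linarith
    · nlinarith [h.bd w hw]
    · have hb := h.bd w hw
      rcases hs with hs | hs
      · nlinarith
      · rcases h.cases_bot hw with ⟨v, hv, b⟩ | b
        · have : w + 1 ≤ 2 * q := by nlinarith [h.bd v hv]
          nlinarith
        · nlinarith
  | succ m ih =>
    intro z hz e
    have p0 : 0 < q ^ m * s := mul_pos (pow_pos q0 m) (by linarith)
    have p1 : q ^ m * s < 2 := by nlinarith [h.pow_le m]
    rw [pow_succ', mul_assoc] at e
    obtain ⟨w, hw, a | a | a⟩ := h.cases_top hz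
    · nlinarith
    · exact ih w hw (mul_left_cancel₀ q0.ne' (a.symm.trans e))
    · nlinarith [h.bd w hw]

/-- Zero is not an interior point when `7 q + 9 q ^ (d + 2) = 1`. -/
theorem zero_not {d : ℕ} (hd : 7 * q + 9 * q ^ (d + 2) = 1) : 0 ∉ interior E := by
  have q0 := h.pos
  have q1 := h.q1
  obtain ⟨s, s0, s1, hs, hs'⟩ : ∃ s : ℝ, 0 < s ∧ s < 2 ∧ (∀ z ∈ E, 5 * z - 3 ≠ q ^ d * s) ∧
      ∀ z ∈ E, 5 * z - 3 ≠ q ^ d * (9 * q - s) := by
    by_cases h4 : q < 4 / 29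
    · refine ⟨9 / 2 * q, by linarith, by linarith, h.gap_top (Or.inl ⟨?_, ?_⟩) d,
        h.gap_top (Or.inl ⟨?_, ?_⟩) d⟩ <;> linarith
    · refine ⟨2 - 9 * q + 4 * q ^ 2, by nlinarith, by nlinarith, h.gap_top (Or.inr ⟨?_, ?_⟩) d,
        h.gap_top (Or.inl ⟨?_, ?_⟩) d⟩ <;> nlinarith
  have p0 : 0 < q ^ d * s := mul_pos (pow_pos q0 d) s0
  have p1 : q ^ d * s < 2 := by nlinarith [h.pow_le d]
  have key : ∀ n : ℕ, q ^ n * (q * (3 + q ^ d * s) / 5) ∉ E := by
    intro n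
    induction n with
    | zero =>
      intro hz
      obtain ⟨k, -, w, hw, e⟩ := h.down _ hz
      have hb := h.bd w hw
      rw [pow_zero, one_mul] at e
      rcases (by omega : k ≤ -1 ∨ k = 0 ∨ k = 1 ∨ 2 ≤ k) with hk | rfl | rfl | hk
      · have : (k : ℝ) ≤ -1 := by exact_mod_cast hk
        nlinarith
      · refine hs w hw (mul_left_cancel₀ q0.ne' ?_)
        push_cast at e
        linarith
      · refine hs' _ (h.neg w hw) (mul_left_cancel₀ q0.ne' ?_)
        push_cast at e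
        linear_combination 5 * e - hd
      · have : (2 : ℝ) ≤ k := by exact_mod_cast hk
        nlinarith
    | succ n ih =>
      intro hz
      have x0 : 0 < q * (3 + q ^ d * s) / 5 := by positivity
      have x1 : q * (3 + q ^ d * s) / 5 < q := by nlinarith
      generalize q * (3 + q ^ d * s) / 5 = x at x0 x1 ih hz
      have y0 : 0 < q ^ n * x := by positivity
      have y1 : q ^ n * x < q := by nlinarith [h.pow_le n]
      rw [pow_succ', mul_assoc] at hz
      generalize q ^ n * x = y at y0 y1 ih hz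
      obtain ⟨w, hw, a | a | a⟩ := h.cases_down hz 0
      · push_cast at a
        nlinarith
      · refine ih ((mul_left_cancel₀ q0.ne' ?_ : w = y) ▸ hw)
        push_cast at a
        linarith
      · push_cast at a
        nlinarith [h.bd w hw]
  intro h0
  have h1 := h.lim.mul_const (q * (3 + q ^ d * s) / 5)
  rw [zero_mul] at h1
  obtain ⟨n, hn⟩ := (h1.eventually (mem_interior_iff_mem_nhds.1 h0)).exists
  exact key n hn

end SS

end Pool.Agent.Lib.MP_def338_an
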