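import Pool.Agent.Lib.MP_def338_an.Fam

/-! The self-similar sets are Cantorvals as soon as they have interior points. -/

set_option autoImplicit false

namespace Pool.Agent.Lib.MP_def338_an

open Set Filter Topology

/-- Points outside `E` accumulate at `y` from both sides. -/
def Iso (E : Set ℝ) (y : ℝ) : Prop :=
  ∀ ε > 0, (∃ t, y - ε < t ∧ t < y ∧ t ∉ E) ∧ ∃ t, y < t ∧ t < y + ε ∧ t ∉ E

theorem Iso.comp {E : Set ℝ} {y : ℝ} (h : Iso E y) (hy : y ∈ E) :
    connectedComponentIn E y = {y} := by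
  have h0 := mem_connectedComponentIn hy
  refine eq_singleton_iff_unique_mem.2 ⟨h0, fun x hx => ?_⟩
  rcases lt_trichotomy x y with a | a | a
  · obtain ⟨t, t1, t2, t3⟩ := (h _ (sub_pos.2 a)).1
    exact absurd (connectedComponentIn_subset E y
      (isPreconnected_connectedComponentIn.Icc_subset hx h0 ⟨by linarith, t2.le⟩)) t3
  · exact a
  · obtain ⟨t, t1, t2, t3⟩ := (h _ (sub_pos.2 a)).2
    exact absurd (connectedComponentIn_subset E y
      (isPreconnected_connectedComponentIn.Icc_subset h0 hx ⟨t1.le, by linarith⟩)) t3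

theorem accPt_of {P : Set ℝ} {u : ℝ} (h : ∀ ε > 0, ∃ y ∈ P, y ≠ u ∧ |y - u| < ε) :
    AccPt u (𝓟 P) := by
  refine accPt_iff_nhds.2 fun U hU => ?_
  obtain ⟨ε, hε, hs⟩ := Metric.mem_nhds_iff.1 hU
  obtain ⟨y, y1, y2, y3⟩ := h ε hε
  exact ⟨y, ⟨hs y3, y1⟩, y2⟩

namespace SS

variable {q : ℝ} {E : Set ℝ} (h : SS q E)
include h

theorem pieces (n : ℕ) : ∃ S : Set ℝ, S.Finite ∧ (∀ s ∈ S, ∀ w ∈ E, s + q ^ n * w ∈ E) ∧
    ∀ z ∈ E, ∃ s ∈ S, ∃ w ∈ E, z = s + q ^ n * w := by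
  induction n with
  | zero => exact ⟨{0}, finite_singleton 0, by simp, by simp⟩
  | succ n ih =>
    obtain ⟨S, h1, h2, h3⟩ := ih
    refine ⟨_, h1.image2 (fun s (k : ℤ) => s + q ^ n * ((1 - q) / 5 * k))
      ((finite_Icc (-5) 5).subset fun k (hk : Dg k) => ⟨hk.1, hk.2.1⟩), ?_, fun z hz => ?_⟩
    · rintro _ ⟨s, hs, k, hk, rfl⟩ w hw
      have := h2 s hs _ (h.up k hk w hw)
      rwa [mul_add, ← add_assoc, ← mul_assoc _ q, ← pow_succ] at this
    · obtain ⟨s, hs, w, hw, rfl⟩ := h3 z hz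
      obtain ⟨k, hk, v, hv, rfl⟩ := h.down w hw
      exact ⟨_, ⟨s, hs, k, hk, rfl⟩, v, hv, by ring⟩

theorem closure_int (hne : (interior E).Nonempty) : closure (interior E) = E := by
  refine (h.cpt.isClosed.closure_interior_subset).antisymm fun z hz => ?_
  refine Metric.mem_closure_iff.2 fun ε hε => ?_
  obtain ⟨n, hn⟩ := h.small (half_pos hε)
  obtain ⟨S, -, h2, h3⟩ := h.pieces n
  obtain ⟨s, hs, w, hw, rfl⟩ := h3 z hz
  obtain ⟨v, hv⟩ := hne
  have hp := pow_pos h.pos n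
  refine ⟨s + q ^ n * v, int_of_cont (A := E) (g := fun y => (y - s) / q ^ n) (by fun_prop)
    (by simpa [hp.ne'] using hv) fun t ht => ?_, ?_⟩
  · have := h2 s hs _ ht
    rwa [mul_div_cancel₀ _ hp.ne', add_sub_cancel] at this
  · have a := h.bd w hw
    have b := h.bd v (interior_subset hv)
    rw [Real.dist_eq, abs_lt]
    constructor <;> nlinarith

theorem gap_bot (m : ℕ) : -1 + q ^ m / 3 ∉ E := by
  have q0 := h.pos
  have q1 := h.q1
  induction m with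
  | zero =>
    intro hz
    rcases h.cases_bot hz with ⟨w, hw, a⟩ | a
    · nlinarith [h.bd w hw]
    · linarith
  | succ m ih =>
    intro hz
    rcases h.cases_bot hz with ⟨w, hw, a⟩ | a
    · refine ih ((mul_left_cancel₀ q0.ne' ?_ : w = -1 + q ^ m / 3) ▸ hw)
      rw [pow_succ] at a
      linarith
    · linarith [h.pow_le (m + 1)]

/-- To the right of a gap there are further gaps. -/
theorem right_end {y δ : ℝ} (hδ : 0 < δ) (hg : ∀ t, y - δ < t → t < y → t ∉ E) {ε : ℝ}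
    (hε : 0 < ε) : ∃ t, y < t ∧ t < y + ε ∧ t ∉ E := by
  obtain ⟨n, hn⟩ := h.small (half_pos hδ)
  obtain ⟨S, h1, h2, h3⟩ := h.pieces n
  have hp := pow_pos h.pos n
  have l1 : Tendsto (fun m : ℕ => y + q ^ n * (q ^ m / 3)) atTop (𝓝 y) := by
    simpa using ((h.lim.div_const 3).const_mul (q ^ n)).const_add y
  have e1 : ∀ᶠ t in 𝓝 y, ∀ s ∈ S, y < s - q ^ n → t < s - q ^ n :=
    (h1.eventually_all).2 fun s _ => by
      by_cases a : y < s - q ^ n
      · exact (gt_mem_nhds a : ∀ᶠ t in 𝓝 y, t < s - q ^ n).mono fun t ht _ => ht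
      · exact Eventually.of_forall fun t b => absurd b a
  obtain ⟨m, m1, m2⟩ := (l1.eventually (e1.and (gt_mem_nhds (lt_add_of_pos_right y hε)))).exists
  have p0 : 0 < q ^ n * (q ^ m / 3) := mul_pos hp (by have := pow_pos h.pos m; positivity)
  refine ⟨_, by linarith, m2, fun hz => ?_⟩
  obtain ⟨s, hs, w, hw, e⟩ := h3 _ hz
  have hb := h.bd w hw
  have a1 : s - q ^ n ≤ y := by
    by_contra a
    nlinarith [m1 s hs (not_le.1 a)]
  have a2 : s - q ^ n = y := by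
    by_contra a
    refine hg (s - q ^ n) (by nlinarith) (lt_of_le_of_ne a1 a) ?_
    simpa [sub_eq_add_neg] using h2 s hs _ h.bot
  refine h.gap_bot m ((mul_left_cancel₀ hp.ne' ?_ : w = -1 + q ^ m / 3) ▸ hw)
  linarith

theorem left_acc {u v : ℝ} (huv : u < v) (hs : Icc u v ⊆ E)
    (hl : ∀ ε > 0, ∃ t, u - ε < t ∧ t < u ∧ t ∉ E) {ε : ℝ} (hε : 0 < ε) :
    ∃ y ∈ E, u - ε < y ∧ y < u ∧ Iso E y := by
  obtain ⟨t, t1, t2, t3⟩ := hl ε hε
  obtain ⟨y, ⟨y1, y2⟩, y3⟩ := (h.cpt.inter_right isClosed_Ici).exists_isLeast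
    ⟨u, hs ⟨le_rfl, huv.le⟩, (t2.le : t ≤ u)⟩
  have y4 : t < y := lt_of_le_of_ne y2 fun e => t3 (e ▸ y1)
  have hg : ∀ r, y - (y - t) < r → r < y → r ∉ E := fun r r1 r2 r3 =>
    (y3 ⟨r3, (by linarith : t ≤ r)⟩).not_gt r2
  have y5 : y ≠ u := by
    rintro rfl
    obtain ⟨r, r1, r2, r3⟩ := h.right_end (sub_pos.2 y4) hg (sub_pos.2 huv)
    exact r3 (hs ⟨r1.le, by linarith⟩)
  refine ⟨y, y1, by linarith, lt_of_le_of_ne (y3 ⟨hs ⟨le_rfl, huv.le⟩, (t2.le : t ≤ u)⟩) y5,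
    fun η hη => ⟨?_, h.right_end (sub_pos.2 y4) hg hη⟩⟩
  obtain ⟨r, r1, r2⟩ := exists_between (max_lt y4 (sub_lt_self y hη))
  exact ⟨r, (max_lt_iff.1 r1).2, r2, hg r (by linarith [(max_lt_iff.1 r1).1]) r2⟩

theorem ends {u v : ℝ} (huv : u < v) {x : ℝ} (hx : x ∈ E)
    (e : connectedComponentIn E x = Icc u v) :
    AccPt u (𝓟 {y ∈ E | connectedComponentIn E y = {y}}) ∧
      AccPt v (𝓟 {y ∈ E | connectedComponentIn E y = {y}}) := by
  have hs : Icc u v ⊆ E := e ▸ connectedComponentIn_subset E x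
  have hx' : x ∈ Icc u v := e ▸ mem_connectedComponentIn hx
  have big : ∀ a b, a ≤ u → v ≤ b → Icc a b ⊆ E → Icc a b ⊆ Icc u v := fun a b ha hb hh =>
    e ▸ isPreconnected_Icc.subset_connectedComponentIn ⟨ha.trans hx'.1, hx'.2.trans hb⟩ hh
  constructor
  · refine accPt_of fun ε hε => ?_
    obtain ⟨y, y1, y2, y3, y4⟩ := h.left_acc huv hs (fun η hη => by
      by_contra! a
      have := big (u - η / 2) v (by linarith) le_rfl (fun t ht => by
        by_cases b : t < u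
        · exact a t (by linarith [ht.1]) b
        · exact hs ⟨not_lt.1 b, ht.2⟩) ⟨le_rfl, by linarith⟩
      linarith [this.1]) hε
    exact ⟨y, ⟨y1, y4.comp y1⟩, y3.ne, abs_lt.2 ⟨by linarith, by linarith⟩⟩
  · refine accPt_of fun ε hε => ?_
    have hn : ∀ t, -t ∈ E → t ∈ E := fun t ht => neg_neg t ▸ h.neg _ ht
    obtain ⟨y, y1, y2, y3, y4⟩ := h.left_acc (neg_lt_neg huv)
      (fun t ht => hn t (hs ⟨by linarith [ht.2], by linarith [ht.1]⟩)) (fun η hη => by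
      by_contra! a
      have := big u (v + η / 2) le_rfl (by linarith) (fun t ht => by
        by_cases b : v < t
        · exact hn t (a (-t) (by linarith [ht.2]) (by linarith))
        · exact hs ⟨ht.1, not_lt.1 b⟩) ⟨by linarith, le_rfl⟩
      linarith [this.2]) hε
    refine ⟨-y, ⟨h.neg y y1, Iso.comp (fun η hη => ?_) (h.neg y y1)⟩, by linarith,
      abs_lt.2 ⟨by linarith, by linarith⟩⟩
    obtain ⟨⟨t, t1, t2, t3⟩, r, r1, r2, r3⟩ := y4 η hη
    exact ⟨⟨-r, by linarith, by linarith, fun a => r3 (hn r a)⟩,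
      -t, by linarith, by linarith, fun a => t3 (hn t a)⟩

end SS

end Pool.Agent.Lib.MP_def338_an
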