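import Pool.Agent.Lib.MP_def338_an.FamB

/-! The difference set of the central Cantor set with terms `3, 2, 3 q, 2 q, …`. -/

set_option autoImplicit false

namespace Pool.Agent.Lib.MP_def338_an

open Set Filter Topology
open scoped Pointwise

/-- The subsum selected by `ε`. -/
noncomputable def fq (x : ℕ → ℝ) (ε : ℕ → Bool) : ℝ := ∑' n, if ε n = true then x n else 0

/-- Two new terms in front. -/
def pre2 (b c : Bool) (e : ℕ → Bool) : ℕ → Bool
  | 0 => b
  | 1 => c
  | (n + 2) => e n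

/-- The terms `3 c, 2 c, 3 c q, 2 c q, …` with `c = (1 - q) / 5`. -/
structure Tm (q : ℝ) (x : ℕ → ℝ) : Prop where
  q0 : 1 / 9 < q
  q1 : q < 1 / 7
  x0 : x 0 = (1 - q) / 5 * 3
  x1 : x 1 = (1 - q) / 5 * 2
  x2 : ∀ n, x (n + 2) = q * x n

namespace Tm

variable {q : ℝ} {x : ℕ → ℝ} (h : Tm q x)
include h

theorem bounds (n : ℕ) : 0 ≤ x n ∧ x n ≤ (1 / 2) ^ n := by
  have q0 := h.q0
  have q1 := h.q1
  induction n using Nat.twoStepInduction with
  | zero => rw [h.x0]; constructor <;> linarith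
  | one => rw [h.x1]; constructor <;> linarith
  | more n ih _ =>
    rw [h.x2, pow_add]
    constructor <;> nlinarith [ih.1, ih.2]

theorem term (ε : ℕ → Bool) (n : ℕ) : ‖(if ε n = true then x n else 0 : ℝ)‖ ≤ (1 / 2) ^ n := by
  split_ifs
  · rw [Real.norm_eq_abs, abs_of_nonneg (h.bounds n).1]
    exact (h.bounds n).2
  · simp

theorem summ (ε : ℕ → Bool) : Summable fun n => (if ε n = true then x n else 0 : ℝ) :=
  Summable.of_norm_bounded summable_geometric_two (h.term ε)

theorem step (ε : ℕ → Bool) : fq x ε = (1 - q) / 5 *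
    ((if ε 0 = true then 3 else 0) + (if ε 1 = true then 2 else 0) : ℤ) +
      q * fq x fun n => ε (n + 2) := by
  unfold fq
  rw [← (h.summ ε).sum_add_tsum_nat_add 2, ← tsum_mul_left]
  congr 1
  · simp only [Finset.sum_range_succ, Finset.sum_range_zero, h.x0, h.x1]
    split_ifs <;> push_cast <;> ring
  · exact tsum_congr fun n => by rw [h.x2]; split_ifs <;> simp

theorem nonneg (ε : ℕ → Bool) : 0 ≤ fq x ε :=
  tsum_nonneg fun n => by
    split_ifs
    exacts [(h.bounds n).1, le_rfl]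

theorem top : fq x (fun _ => true) = 1 := by
  have e := h.step fun _ => true
  refine mul_left_cancel₀ (by linarith [h.q1] : 1 - q ≠ 0) ?_
  simp only [if_true] at e
  push_cast at e
  linarith

theorem le_one (ε : ℕ → Bool) : fq x ε ≤ 1 := by
  rw [← h.top]
  refine (h.summ ε).tsum_le_tsum (fun n => ?_) (h.summ _)
  simp only [if_true]
  split_ifs
  exacts [le_rfl, (h.bounds n).1]

theorem cont : Continuous (fq x) :=
  continuous_tsum (fun n => (continuous_of_discreteTopology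
    (f := fun b : Bool => (if b = true then x n else 0 : ℝ))).comp (continuous_apply n))
    summable_geometric_two fun n ε => h.term ε n

theorem ss : SS q (range (fq x) - range (fq x)) where
  q0 := h.q0
  q1 := h.q1
  cpt := by
    rw [sub_eq_add_neg]
    exact (isCompact_range h.cont).add (isCompact_range h.cont).neg
  bot := ⟨_, ⟨fun _ => false, rfl⟩, _, ⟨fun _ => true, rfl⟩, by
    have e : fq x (fun _ => false) = 0 := tsum_zero
    beta_reduce
    rw [h.top, e, zero_sub]⟩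
  bd := by
    rintro _ ⟨_, ⟨e, rfl⟩, _, ⟨e', rfl⟩, rfl⟩
    beta_reduce
    constructor <;> linarith [h.nonneg e, h.nonneg e', h.le_one e, h.le_one e']
  neg := by
    rintro _ ⟨u, hu, v, hv, rfl⟩
    exact ⟨v, hv, u, hu, (neg_sub u v).symm⟩
  down := by
    rintro _ ⟨_, ⟨e, rfl⟩, _, ⟨e', rfl⟩, rfl⟩
    refine ⟨((if e 0 = true then 3 else 0) + (if e 1 = true then 2 else 0)) -
      ((if e' 0 = true then 3 else 0) + (if e' 1 = true then 2 else 0)), ?_, _,
      ⟨_, ⟨fun n => e (n + 2), rfl⟩, _, ⟨fun n => e' (n + 2), rfl⟩, rfl⟩, ?_⟩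
    · unfold Dg
      split_ifs <;> omega
    · beta_reduce
      rw [h.step e, h.step e', Int.cast_sub]
      ring
  up := by
    rintro k hk _ ⟨_, ⟨e, rfl⟩, _, ⟨e', rfl⟩, rfl⟩
    obtain ⟨b, c, b', c', rfl⟩ : ∃ b c b' c' : Bool, k =
        ((if b = true then 3 else 0) + (if c = true then 2 else 0)) -
          ((if b' = true then 3 else 0) + (if c' = true then 2 else 0)) := by
      obtain ⟨h1, h2, h3, h4⟩ := hk
      interval_cases k <;> first | contradiction | decide
    refine ⟨_, ⟨pre2 b c e, rfl⟩, _, ⟨pre2 b' c' e', rfl⟩, ?_⟩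
    beta_reduce
    rw [h.step (pre2 b c e), h.step (pre2 b' c' e'), Int.cast_sub]
    exact (fun r s t u v w : ℝ =>
      (by ring : r * s + t * u - (r * v + t * w) = r * (s - v) + t * (u - w))) _ _ _ _ _ _

theorem subsums (y : ℕ → ℝ) (hy : ∀ n, y (n + 1) = x n) :
    {s : ℝ | ∃ A : Set ℕ, (∀ j ∈ A, 1 ≤ j) ∧ HasSum (fun j : A => y j) s} = range (fq x) := by
  classical
  have key : ∀ (A : Set ℕ) (ε : ℕ → Bool), 0 ∉ A → (∀ n, n + 1 ∈ A ↔ ε n = true) →
      HasSum (fun j : A => y j) (fq x ε) := by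
    intro A ε h0 hA
    have h1 : HasSum (fun n => A.indicator y (n + 1)) (fq x ε) := by
      have : (fun n => A.indicator y (n + 1)) = fun n => if ε n = true then x n else 0 := by
        funext n
        simp only [indicator_apply, hA, hy]
      rw [this]
      exact (h.summ ε).hasSum
    have h2 := (hasSum_nat_add_iff (f := A.indicator y) 1).1 h1
    simp only [Finset.range_one, Finset.sum_singleton, indicator_of_notMem h0, add_zero] at h2
    exact hasSum_subtype_iff_indicator.2 h2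
  ext s
  constructor
  · rintro ⟨A, hA, hs⟩
    exact ⟨fun n => decide (n + 1 ∈ A),
      (key A _ (fun h => by simpa using hA 0 h) fun n => by simp).unique hs⟩
  · rintro ⟨ε, rfl⟩
    exact ⟨{j | 1 ≤ j ∧ ε (j - 1) = true}, fun j hj => hj.1, key _ ε (by simp) fun n => by simp⟩

end Tm

theorem tm_of {q : ℝ} (q0 : 1 / 9 < q) (q1 : q < 1 / 7) {a lam x : ℕ → ℝ}
    (ha : ∀ n, a n = if Odd n then (1 - 6 * q) / 5 else (2 - 7 * q) / (2 + 3 * q))
    (hlam : ∀ n, lam n = (1 - a n) / 2)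
    (hx : ∀ n, x n = (∏ i ∈ Finset.Ico 1 n, lam i) * (1 - lam n)) : Tm q fun n => x (n + 1) := by
  have hp : 2 + 3 * q ≠ 0 := by linarith
  have l1 : lam 1 = (2 + 3 * q) / 5 := by
    rw [hlam, ha, if_pos odd_one]
    ring
  have l2 : lam 2 = 5 * q / (2 + 3 * q) := by
    rw [hlam, ha, if_neg (by decide)]
    field_simp
    ring
  have l3 : ∀ n, lam (n + 2) = lam n := fun n => by
    simp only [hlam, ha, Nat.odd_iff, Nat.add_mod_right]
  have hx' : ∀ n, x (n + 1) = (∏ i ∈ Finset.range n, lam (i + 1)) * (1 - lam (n + 1)) := fun n => by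
    rw [hx, Finset.prod_Ico_eq_prod_range]
    simp only [Nat.add_sub_cancel, add_comm 1]
  refine ⟨q0, q1, ?_, ?_, fun n => ?_⟩
  · rw [hx', Finset.prod_range_zero, l1]
    ring
  · rw [hx', Finset.prod_range_one, l1, l2]
    field_simp
    ring
  · rw [hx', hx', Finset.prod_range_succ', Finset.prod_range_succ', l1, l2, l3 (n + 1),
      Finset.prod_congr rfl fun i _ => l3 (i + 1)]
    field_simp

theorem exists_roots : ∃ q : ℕ → ℝ, StrictMono q ∧ Tendsto q atTop (𝓝 (1 / 7)) ∧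
    ∀ d, 1 / 9 < q d ∧ q d < 1 / 7 ∧ 7 * q d + 9 * q d ^ (d + 2) = 1 := by
  have h1 : ∀ d : ℕ, ∃ q ∈ Ioo (1 / 9 : ℝ) (1 / 7), 7 * q + 9 * q ^ (d + 2) = 1 := fun d => by
    refine intermediate_value_Ioo (f := fun q : ℝ => 7 * q + 9 * q ^ (d + 2)) (by norm_num)
      (by fun_prop) ⟨?_, ?_⟩
    · have : (1 / 9 : ℝ) ^ d ≤ 1 := pow_le_one₀ (by norm_num) (by norm_num)
      beta_reduce
      rw [pow_add]
      linarith
    · have : (0 : ℝ) < (1 / 7) ^ (d + 2) := by positivity
      beta_reduce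
      linarith
  choose q h1 h2 using h1
  have h0 : ∀ d, 0 < q d := fun d => lt_trans (by norm_num) (h1 d).1
  refine ⟨q, strictMono_nat_of_lt_succ fun d => ?_, ?_, fun d => ⟨(h1 d).1, (h1 d).2, h2 d⟩⟩
  · by_contra! a
    have a1 : q (d + 1) ^ (d + 1 + 2) ≤ q d ^ (d + 1 + 2) := pow_le_pow_left₀ (h0 _).le a _
    have a2 : q d ^ (d + 1 + 2) < q d ^ (d + 2) :=
      pow_lt_pow_right_of_lt_one₀ (h0 d) ((h1 d).2.trans (by norm_num)) (by omega)
    linarith [h2 d, h2 (d + 1)]
  · have l : Tendsto (fun d : ℕ => 1 / 7 - (1 / 7 : ℝ) ^ d) atTop (𝓝 (1 / 7)) := by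
      have l := (tendsto_pow_atTop_nhds_zero_of_lt_one (r := (1 / 7 : ℝ)) (by norm_num)
        (by norm_num)).const_sub (1 / 7)
      rwa [sub_zero] at l
    refine tendsto_of_tendsto_of_tendsto_of_le_of_le l tendsto_const_nhds (fun d => ?_)
      fun d => (h1 d).2.le
    have a1 : q d ^ (d + 2) ≤ (1 / 7) ^ (d + 2) := pow_le_pow_left₀ (h0 d).le (h1 d).2.le _
    have a2 : (0 : ℝ) < (1 / 7) ^ d := by positivity
    rw [pow_add (1 / 7 : ℝ)] at a1
    beta_reduce
    linarith [h2 d]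

end Pool.Agent.Lib.MP_def338_an
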